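import Pool.Agent.Helper5.KPA.StN

/-!
# PROJECT KP, chapter T: traces of square integrable forms

`P` = polynomials in `M` variables, `a : Fin M → P` algebraically independent, `a : ℂ^M → ℂ^M` also the
polynomial map (`evm a`).  All modules are independent (statements used are hypotheses).
TARGET: `StTFB`.
-/

set_option autoImplicit false

namespace Pool.Agent.Helper5.KPA

open Pool.Agent.Helper52.KP MvPolynomial MeasureTheory

/-- MODULE TPE (150 lines; primitive element).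
PROOF.  `L = KK M`, `L₀` = the subfield generated by `a` (the image of `KK M` under the injective map induced by
`aeval a`).  `L` has transcendence degree `M`, so `a` is a transcendence basis and `L / L₀` is algebraic, generated
by the `X_l`, so finite; characteristic 0: there is a primitive element `θ₀`.  `θ₀ = p / q`; `q` is algebraic over
`L₀`, so `1 / q` is a polynomial in `q` with coefficients in `L₀`; so `θ₀ = ∑ c_i p q^i`, `c_i ∈ L₀`, and multiplying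
with a common denominator `aeval a β` we get a primitive element `θ ∈ P`.  `χ` = minimal polynomial of `θ` over
`L₀` with denominators cleared (coefficients `aeval a (χ_i)`), irreducible over the fraction field.  Every `p ∈ P` is
a polynomial in `θ` over `L₀`; clear denominators. -/
def StTPE : Prop := ∀ (M : ℕ) (a : Fin M → MvPolynomial (Fin M) ℂ), AlgebraicIndependent ℂ a →
  ∃ (θ : MvPolynomial (Fin M) ℂ) (χ : Polynomial (MvPolynomial (Fin M) ℂ)), 0 < χ.natDegree ∧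
    Irreducible (χ.map (algebraMap (MvPolynomial (Fin M) ℂ) (KK M))) ∧
    Polynomial.eval₂ ((aeval a : MvPolynomial (Fin M) ℂ →ₐ[ℂ] MvPolynomial (Fin M) ℂ) :
      MvPolynomial (Fin M) ℂ →+* MvPolynomial (Fin M) ℂ) θ χ = 0 ∧
    ∀ p : MvPolynomial (Fin M) ℂ, ∃ (s : MvPolynomial (Fin M) ℂ)
      (h : Polynomial (MvPolynomial (Fin M) ℂ)), s ≠ 0 ∧ aeval a s * p =
        Polynomial.eval₂ ((aeval a : MvPolynomial (Fin M) ℂ →ₐ[ℂ] MvPolynomial (Fin M) ℂ) :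
          MvPolynomial (Fin M) ℂ →+* MvPolynomial (Fin M) ℂ) θ h

/-- MODULE TRC (300 lines, uses StTPE; STRONG).
PROOF.  Let `E = KK M` (functions of `v`), `j : E → L = KK M` the map induced by `aeval a`, `χ₁` = `χ` divided by its
leading coefficient, `δ = natDegree χ`.  By StTPE `L = j(E)(θ)`, of degree `δ`.  `T` = trace of `L` over `j(E)`
composed with `j⁻¹` (use the subfield `j.fieldRange`, so that there is no clash with the identity algebra).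
`pos, lin, one` are clear.  `fib`: write in `L`, with polynomials over `E` evaluated at `θ` (coefficients through
`j`): `X_l = g_l(θ)` (`g_l = h_l / s_l` from StTPE), `1 / q = k(θ)`, `p / q = h(θ)`.  Then there are identities in
`E[t]`: `a_i(g_1,...,g_M) - v_i = χ₁ Q_i`, `θ(g_1,..,g_M) - t = χ₁ Q'`, `q(g) k - 1 = χ₁ Q''`,
`p(g) k - h = χ₁ Q'''` (both sides vanish at `θ`), and `U χ₁ + V χ₁' = 1` (irreducible, characteristic 0).  Let
`0 ≠ D₀ ∈ P` be a common denominator of all coefficients of all these polynomials over `E`, a multiple of the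
`s_l` and of the leading coefficient of `χ`.  Let `D₀(v) ≠ 0`; all identities can be specialized at `v`.
`χ₁(v; t)` has `δ` distinct roots `θ_1..θ_δ ∈ ℂ`.  `ζ^(i) = (g_l(v; θ_i))_l`: then `a(ζ^(i)) = v`,
`θ(ζ^(i)) = θ_i` (so they are distinct), `q(ζ^(i)) k(v; θ_i) = 1`, `p(ζ^(i)) / q(ζ^(i)) = h(v; θ_i)`.  Conversely if
`a(ζ) = v`, evaluate `aeval a s_l X_l = h_l(a; θ)` and `χ(a; θ) = 0` at `ζ`: `s_l(v) ζ_l = h_l(v; θ(ζ))` and
`χ(v; θ(ζ)) = 0`, so `ζ = ζ^(i)` for some `i`.  `Z = {ζ^(1), ..., ζ^(δ)}`.  Trace: in the basis `1, θ, ..., θ^(δ-1)`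
multiplication by `θ` is the companion matrix `C` of `χ₁`, and `T(h(θ)) = trace h(C)`, whose specialization at `v` is
`trace h(v; C(v)) = ∑_i h(v; θ_i)` (`C(v)` has characteristic polynomial `χ₁(v; t)` with distinct roots `θ_i`).
All entries have denominators dividing a power of `D₀`: take `D = D₀^K`, `N = D T(h(θ))`. -/
def StTRC : Prop := ∀ (M : ℕ) (a : Fin M → MvPolynomial (Fin M) ℂ), AlgebraicIndependent ℂ a →
  ∃ (δ : ℕ) (T : KK M →+ KK M), IsTr a δ T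

/-- MODULE TAF (150 lines; area formula; compare StARE of Helper52 and its proof).
PROOF.  On the open set `{jac a ≠ 0}` the map is locally injective (inverse function theorem); by Lindelöf it is a
countable disjoint union of measurable sets `W_n` on which the map is injective.
`∫⁻ ζ in W_n ∩ a⁻¹ S, ψ ζ ‖jac‖² = ∫⁻ v in a(W_n) ∩ S, ψ ((a|W_n)⁻¹ v)` (change of variables; the real determinant of
the complex linear derivative is `‖jac a‖²`, see the proof of StARE).  For fixed `v` the sum over `ζ` in the fibre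
is the sum over `n` of the terms `1_(a(W_n))(v) ψ ((a|W_n)⁻¹ v)`.  `lintegral_tsum`. -/
def StTAF : Prop := ∀ (M : ℕ) (a : Fin M → MvPolynomial (Fin M) ℂ) (ψ : (Fin M → ℂ) → ENNReal),
  Measurable ψ → ∀ S : Set (Fin M → ℂ), MeasurableSet S →
  ∫⁻ v in S, (∑' ζ : {ζ : Fin M → ℂ // evm a ζ = v ∧ ev (jac a) ζ ≠ 0}, ψ ζ.1) ≤
    ∫⁻ ζ in {ζ | evm a ζ ∈ S}, ψ ζ * ENNReal.ofReal (‖ev (jac a) ζ‖ ^ 2)

/-- MODULE TRL (150 lines; a rational function which is locally square integrable is a polynomial).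
PROOF.  Suppose `D ∤ N`.  Dividing both by their gcd (UFD; the quotient of the values does not change off the
zero set of the gcd, a null set, `StNUL` of Helper52 or directly) we may assume that they are coprime, `D` not
constant.  Let `π` be an irreducible factor of `D`.  `N` does not vanish on the zero set of `π` (otherwise
`π ∣ N^K` by the Nullstellensatz, `π ∣ N`): there is `v₀` with `D(v₀) = 0`, `N(v₀) ≠ 0`.  Let `D(v₁) ≠ 0`,
`w = v₁ - v₀`; `s ↦ D(v₀ + s w)` is a nonzero polynomial, so there is a small `ε > 0` with `D(v₀ + s w) ≠ 0` for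
`|s| = ε` and `|N(v₀ + s w)| ≥ 2 c` for `|s| ≤ 2 ε`.  By continuity there is `ρ > 0` such that for `‖b - v₀‖ ≤ ρ`:
`|N(b + s w)| ≥ c` for `|s| ≤ 2 ε` and `|D(b)| < min_(|s| = ε) |D(b + s w)|`.  Then `s ↦ D(b + s w)` has a zero
`s(b)` with `|s(b)| < ε` (otherwise the maximum principle for `1 / D(b + s w)` is violated), and
`|D(b + s w)| ≤ C |s - s(b)|` for `|s| ≤ 2ε`, so `∫_(|s| ≤ 2ε) |N/D|²(b + s w) ds = ∞`.  Integrate over `b` in the
ball and exchange (Tonelli): `∞ = ∫_(|s| ≤ 2ε) ∫_(‖b - v₀‖ ≤ ρ) |N/D|²(b + s w) db ds ≤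
(area) ∫_(‖v‖ ≤ c') |N/D|² < ∞`, a contradiction. -/
def StTRL : Prop := ∀ (M : ℕ) (N D : MvPolynomial (Fin M) ℂ), D ≠ 0 →
  (∀ c : ℝ, ∫⁻ v in {v : Fin M → ℂ | ‖v‖ ≤ c}, ENNReal.ofReal (‖ev N v / ev D v‖ ^ 2) ≠ ⊤) → D ∣ N

/-- MODULE TIN (120 lines, uses StTAF StTRL).
PROOF.  `q = jac a ≠ 0`.  `IsTr.fib` for `p = b G`, `q`: `N, D`.  For `D(v) ≠ 0`:
`|N(v)/D(v)|² = |∑_(ζ ∈ Z) b G / q|² ≤ δ ∑_(ζ ∈ Z) |b G / q|² ≤ δ ∑'_(a(ζ) = v, q(ζ) ≠ 0) |b G / q|²(ζ)`; `{D = 0}` is a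
null set.  StTAF with `ψ = |b G / q|²`, `S = {‖v‖ ≤ c}`: `∫_S |N/D|² ≤ δ ∫_(‖a(ζ)‖ ≤ c) |b G|² ≤
δ C² ∫_(‖a(ζ)‖ ≤ c) |G|² < ∞` (`ψ |q|² ≤ |b G|²`, with equality where `q ≠ 0`).  StTRL: `D ∣ N`. -/
def StTIN : Prop := ∀ (M : ℕ) (a : Fin M → MvPolynomial (Fin M) ℂ) (δ : ℕ) (T : KK M →+ KK M),
  AlgebraicIndependent ℂ a → jac a ≠ 0 → IsTr a δ T → ∀ G b : MvPolynomial (Fin M) ℂ,
  (∀ c : ℝ, ∫⁻ ζ in {ζ : Fin M → ℂ | ‖evm a ζ‖ ≤ c}, ENNReal.ofReal (‖ev G ζ‖ ^ 2) ≠ ⊤) →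
  (∀ c : ℝ, ∃ K : ℝ, ∀ ζ : Fin M → ℂ, ‖evm a ζ‖ ≤ c → ‖ev b ζ‖ ≤ K) →
  ∃ α : MvPolynomial (Fin M) ℂ, T (emb (b * G) / emb (jac a)) = emb α

/-- MODULE THO (100 lines).
PROOF.  `IsTr.fib` for `p, q`: `emb N / emb D = emb α`, so `N = α D` and `α(v) = ∑_(ζ ∈ Z(v)) p/q (ζ)` whenever
`D(v) ≠ 0`, `Z(v) = {ζ : a(ζ) = v}`.  Let `c ≠ 0`.  `a(scl w c ζ) = c^d a(ζ)`, so `Z(c^d v) = scl w c (Z(v))`, and
for `v` with `D(v) ≠ 0`, `D(c^d v) ≠ 0`: `α(c^d v) = ∑_(ζ ∈ Z(v)) (p/q)(scl w c ζ) = c^(e₁ - e₂) α(v) = c^(d i) α(v)`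
(integer power).  Both sides are polynomials in `v`, and `D(v) D(c^d v) ≠ 0` on a dense set, so this holds for
all `v`.  Homogeneous components: `c^(d j) α_j = c^(d i) α_j` for all `c ≠ 0`, so `α_j = 0` for `j ≠ i` (`d > 0`; for
`i < 0` all `α_j = 0`). -/
def StTHO : Prop := ∀ (M : ℕ) (a : Fin M → MvPolynomial (Fin M) ℂ) (δ : ℕ) (T : KK M →+ KK M),
  IsTr a δ T → ∀ (w : Fin M → ℕ) (d : ℕ), 0 < d →
  (∀ i (c : ℂ) ζ, ev (a i) (scl w c ζ) = c ^ d * ev (a i) ζ) →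
  ∀ (p q : MvPolynomial (Fin M) ℂ) (e₁ e₂ : ℕ) (i : ℤ), q ≠ 0 → (e₁ : ℤ) = e₂ + d * i →
  (∀ (c : ℂ) ζ, ev p (scl w c ζ) = c ^ e₁ * ev p ζ) →
  (∀ (c : ℂ) ζ, ev q (scl w c ζ) = c ^ e₂ * ev q ζ) →
  ∀ α : MvPolynomial (Fin M) ℂ, T (emb p / emb q) = emb α → α ∈ hp M i

/-- MODULE TEV (50 lines).
PROOF.  `finSuccEquiv` and evaluation (`MvPolynomial.eval_eq_eval_mv_eval'` or similar). -/
def StTEV : Prop := ∀ (m : ℕ) (x : QQ m) (τ : ℂ) (z : Fin m → ℂ),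
  ev (toM m x) (Fin.cons τ z : Fin (m + 1) → ℂ) =
    Polynomial.eval τ (x.map (MvPolynomial.eval z))

/-- MODULE TAD (60 lines).
PROOF.  `V = F 1 0` is finite-dimensional (`NF.zero`, `Good.fd`), `F 1 l` is a decreasing chain of subspaces with
`F 1 L = ⊥`.  Choose a basis of `F 1 (L-1)`, extend it to a basis of `F 1 (L-2)`, ..., to a basis of `F 1 0`;
`lam j` = the largest `l` with `s_j ∈ F 1 l`. -/
def StTAD : Prop := ∀ (C : Cone), Good C → ∀ r F, NF C r F →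
  ∃ (N : ℕ) (s : Fin N → MvPolynomial (Fin C.m) ℂ) (lam : Fin N → ℕ), Adp C r F 1 s lam

/-- MODULE TSC (80 lines).
PROOF.  `d = n r`, `s_j ∈ F 1 0 = R d` (`Adp.span` with `l = 0`), so `PP s lam t (scl w c z) = c^(2 d) PP s lam t z` for
real `c > 0` (`Good.hom`).  With `c = Λ^(1/(2d))` the set `{PP ≤ Λ}` is the image of `{PP ≤ 1}` under the linear
bijection `scl w c`, whose real determinant is `c^(2 ∑ w_j)`; `|J (scl w c z)|² = c^(2 jd) |J z|²` (`Good.Jhom`), and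
`jd + ∑ w_j = n` (`Good.deg`).  So `nu {PP ≤ Λ} = c^(2n) nu {PP ≤ 1}`, `c^(2n) = Λ^(n/d) = Λ^(1/r)`. -/
def StTSC : Prop := ∀ (C : Cone), Good C → ∀ r F, NF C r F →
  ∀ (N : ℕ) (s : Fin N → MvPolynomial (Fin C.m) ℂ) (lam : Fin N → ℕ), Adp C r F 1 s lam →
  ∀ Λ t : ℝ, 0 < Λ → C.nu {z | PP s lam t z ≤ Λ} =
    ENNReal.ofReal (Λ ^ (1 / (r : ℝ))) * C.nu {z | PP s lam t z ≤ 1}

/-- MODULE TIG (200 lines, uses StTEV StTAD StTSC StABD StAGR).
PROOF.  Coordinates `ζ = (τ, z)`; the integrand is `|s(z)|² |J(z)|² |τ|^(2(l-1))`, and `|J|² dz = dnu`.  Let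
`A_c = {‖a(τ, z)‖ ≤ c}`.  By StABD (evaluation at `(z, τ)` is an algebra homomorphism of `QQ m`) every element of every
`BB F i` is bounded on `A_c`.  Let `s_j, lam_j` be an adapted basis (StTAD); `s_j τ^(lam_j) ∈ BB F 1` and
`s_j ∈ BB F 1`, so with some `Λ > 0`: on `A_c`: `PP s lam t z ≤ Λ` for `t = 2 log |τ|` if `τ ≠ 0`, and
`PP s lam 0 z ≤ Λ`.  `s^(r j) τ^lam ∈ BB F (j (r k - 1))` (`Gro`), and `s^(r j) ∈ BB F (j (r k - 1))` (as
`F _ lam ≤ F _ 0`), so `|s|^(2 r j) |τ|^(2 lam) ≤ C'` and `|s|^(2 r j) ≤ C'` on `A_c`; `r j ≥ 1` so `|s|²` is bounded,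
and `|s|² ≤ C'' |τ|^(-2 lam / (r j))`.
Region `|τ| ≤ 1`: the integral is at most (area of the disc) `C'' nu {PP s lam 0 z ≤ Λ} < ∞` (`l ≥ 1`; Slo with
`t = 0`, StTSC).  Region `2^i ≤ |τ| < 2^(i+1)`, `i ≥ 0`: area `≤ π 4^(i+1)`, `|τ|^(2(l-1)) ≤ 4^((i+1)(l-1))`,
`|s|² ≤ C'' 4^(-i lam/(r j))`, and `z ∈ {PP s lam t ≤ Λ}` with `t ≥ t_i = i log 4`, so `PP s lam t_i z ≤ Λ`: by Slo
and StTSC this set has `nu`-measure at most `K e^(-(ℓ-ε) t_i) = K 4^(-i(ℓ-ε))`.  Let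
`lam / (r j) = l - ℓ + 2 ε`, `ε > 0` (`Gro`).  The sum over `i` of
`4^i 4^(i(l-1)) 4^(-i(l-ℓ+2ε)) 4^(-i(ℓ-ε)) = 4^(-iε)` converges.  (Tonelli in `(τ, z)`:
`volume` on `Fin (m+1) → ℂ` is the product by `MeasureTheory.volume_preserving_piFinSuccAbove` or similar.) -/
def StTIG : Prop := ∀ (C : Cone), Good C → ∀ r F, NF C r F → ∀ a : Fin (C.m + 1) → QQ C.m,
  NN (BB F) a → ∀ ℓ : ℝ, Slo C r F ℓ → ∀ (k l : ℕ) (s : MvPolynomial (Fin C.m) ℂ), 1 ≤ k → 1 ≤ l →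
  s ∈ C.R (C.n * r * k - C.n) → Gro F r k l ℓ s → ∀ c : ℝ,
  ∫⁻ ζ in {ζ : Fin (C.m + 1) → ℂ | ‖evm (fun i => toM C.m (a i)) ζ‖ ≤ c},
    ENNReal.ofReal (‖ev (toM C.m (Polynomial.C (s * C.J) * Polynomial.X ^ (l - 1))) ζ‖ ^ 2) ≠ ⊤

/-- MODULE TJS (120 lines, uses StAJC).
PROOF.  `∂/∂ζ_0 (toM x) = toM (derivative x)`, `∂/∂ζ_(j+1) (toM x) = toM (x with ∂_j applied to the coefficients)`.
Expand the determinant along the column of `∂/∂τ`: it is `∑_i ± toM ((derivative a_i) μ_i)` with `μ_i` the minor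
`det (∂_j a_i')_(i' ≠ i, j)`, which is multilinear in the `a_i'`: writing `a_i' = ∑_l a_(i',l) τ^l`,
`a_(i',l) ∈ R (d)` (`BB F 1`, `F 1 l ≤ F 1 0 = R (n r)`), `μ_i` is a sum of terms `jac (a_(i',l(i'))) τ^(∑ l)`, and by
`Good.jac` each of these is `s J τ^(..)` with `s ∈ R (m d - n)` (`m d ≥ n` since otherwise it is `0`).  So the
determinant is `toM (S * C J)`, `S ∈ QR C (d + (m d - n))`.  `toM` of an algebraically independent family is
algebraically independent, so `S ≠ 0` by StAJC. -/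
def StTJS : Prop := ∀ (C : Cone), Good C → ∀ r F, NF C r F → ∀ a : Fin (C.m + 1) → QQ C.m,
  NN (BB F) a → ∃ S ∈ QR C (C.n * r * (C.m + 1) - C.n), S ≠ 0 ∧
    jac (fun i => toM C.m (a i)) = toM C.m (S * Polynomial.C C.J)

/-- MODULE TNB (120 lines, uses StAGR).
PROOF.  `d = n r`.  `τ x' = x ∈ QR C (d k - n)`, so `x' ∈ QR C (d k - n)`.  We want `b` with `b x' = α S`.  Let
`y₁ = S x'^(r-1) ∈ QR C (d (m+1) - n + (r-1)(d k - n)) = QR C (d (m + (r-1) k))` and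
`y₂ = x'^r ∈ QR C (d (r k - 1))` (`r n = d`), `y₁ x' = S y₂`.  Let `L` be larger than the `τ`-degrees of `y₁, y₂` and
`0 ≠ s ∈ R (d L)` (a power of some `X_i^d`).  `s y₁` has coefficients in `R (d (L + ..)) = F (L+..) l` for
`l ≤ L` (StAGR), so `b₁ = s y₁` and `b₂ = s y₂` are in the algebra `B = ⊕ BB F i` (each in one degree), `b₂ ≠ 0`.
`b₂` is integral over `ℂ[a]` (as in StATD), so there is `b₃ ∈ B` with `b₂ b₃ = aeval a α ≠ 0` (constant term of the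
minimal equation, `B` is a domain).  `b = b₁ b₃`: `b x' = s y₁ x' b₃ = s S y₂ b₃ = S b₂ b₃ = S (aeval a α)`.
`b` is a finite sum of elements of the `BB F i`. -/
def StTNB : Prop := ∀ (C : Cone), Good C → ∀ r F, NF C r F → ∀ a : Fin (C.m + 1) → QQ C.m,
  NN (BB F) a → ∀ (k : ℕ) (x' S : QQ C.m), 1 ≤ k → x' ∈ QR C (C.n * r * k - C.n) → x' ≠ 0 →
  S ∈ QR C (C.n * r * (C.m + 1) - C.n) →
  ∃ b ∈ (⨆ i, BB F i), ∃ α : MvPolynomial (Fin (C.m + 1)) ℂ, α ≠ 0 ∧ b * x' = aeval a α * S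

/-- MODULE TFB (200 lines, uses StTRC StTIN StTHO StTIG StTJS StTNB StAJC StABD StAGR).
PROOF.  `a' = toM ∘ a` (algebraically independent), `δ, T` from StTRC, `d = n r`.  For `x ∈ E` let `x = τ x'`,
`G_x = toM (x' * C J) = ∑_(l ≥ 1) toM (C (x_l J) τ^(l-1))`, square integrable on the sets `{‖a'‖ ≤ c}` by StTIG
(finite sum).  Elements `b ∈ BB F i` are bounded there (StABD).  StTIN: `T(emb (toM b * G_x) / emb (jac a')) = emb α`
for a unique `α =: φ_x i b`, linear in `x` and `b`; `φ_x (i+1) (a_l b) = X_l φ_x i b` by `IsTr.lin`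
(`toM (a_l b) = aeval a' X_l * toM b`).  Degree: StTHO for `w' = (0, w)` (`τ` has weight `0`), exponents
`e₁ = d i + (d k - n) + jd` (`BB F i ⊆ QR C (d i)`; `Good.hom`, `Good.Jhom`, the latter extends from `U` to all `z` by
density), `e₂ = d (m+1) - n + jd` (StTJS; `m = 2 n`, so no truncation; `d k ≥ n`), `e₁ = e₂ + d (i + k - (m+1))`:
`φ_x i b ∈ hp (m+1) (i + k - (m+1))`.  So `x ↦ φ_x` is a linear map `E → Dl (ac a) (BB F) k`.  Injective: let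
`x ≠ 0`, `b, α` from StTNB (`S` from StTJS): `toM b * G_x = toM (b x' C J) = aeval a' α * jac a'`, so
`T(emb (toM b * G_x) / emb (jac a')) = emb α T 1 = δ emb α ≠ 0`, and `b = ∑ b_i`, so some `φ_x i b_i ≠ 0`. -/
def StTFB : Prop := ∀ (C : Cone), Good C → ∀ r F, NF C r F → ∀ a : Fin (C.m + 1) → QQ C.m,
  NN (BB F) a → (∀ k, FiniteDimensional ℂ (Dl (ac a) (BB F) k)) →
  ∀ ℓ : ℝ, Slo C r F ℓ → ∀ (k : ℕ) (E : Submodule ℂ (QQ C.m)), 1 ≤ k →
  (∀ x ∈ E, x ∈ QR C (C.n * r * k - C.n) ∧ x.coeff 0 = 0 ∧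
    ∀ l, 1 ≤ l → x.coeff l ≠ 0 → Gro F r k l ℓ (x.coeff l)) →
  FiniteDimensional ℂ E ∧ Module.finrank ℂ E ≤ Module.finrank ℂ (Dl (ac a) (BB F) k)

end Pool.Agent.Helper5.KPA
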