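import Pool.Agent.Helper5.KPA.Defs2

/-!
# PROJECT KP, chapter A, part N: the graded rings, Noether normalization, bounds, Jacobian criterion

All modules are independent.
-/

set_option autoImplicit false

namespace Pool.Agent.Helper5.KPA

open Pool.Agent.Helper52.KP MvPolynomial

/-- MODULE AGR (150 lines).
PROOF.  `d = n r > 0`, `RD C r k = R (d k) = F k 0`.  `R 0` = constants (`Good.one`, `Good.cst`).
(1) `F k l = F k 0` for `l ≤ k`: `k = 0` clear, `k = 1` is `NF.one`; `k + 1`: `F (k+1) 0` is spanned by products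
`f f'`, `f ∈ F k 0 = F k k`, `f' ∈ F 1 0 = F 1 1` (`NF.gen`), so they are in `F (k+1) (k+1)` (`NF.mul`); `anti`.
(2) Let `F 1 L = ⊥`.  `F k l = ⊥` for `l ≥ k L + 1`: `k = 0`: `sep0`, `anti`; `k = 1`: `anti`; `k + 1`: by `gen`
`F (k+1) l` is spanned by `f f'`, `i + j = l ≥ (k+1) L + 1`, so `i ≥ k L + 1` or `j ≥ L`.
(3) `GrA (BB F)`: finite-dimensional by (2) and `Good.fd`; independent: an element of `BB F k` satisfies
`x(scl c z, τ) = c^(d k) x(z, τ)` (`Good.hom`), different exponents for different `k` (Vandermonde, or compare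
with the weighted homogeneous components of the coefficients); `BB F 0` = constants; products: coefficients of
`x y` are sums of `x_i y_j ∈ F (k+k') (i+j)`; generated in degree one: `k = 0` clear (`1 ∈ BB F 0`), `k ≥ 1`:
an element `f τ^l`, `f ∈ F (k+1) l`, is by `NF.gen` a sum of `(f' τ^i)(f'' τ^j)`.
(4) `GrA (RD C r)`: the same with `τ^0` only (`NF.gen` for `l = 0`). -/
def StAGR : Prop := ∀ (C : Cone), Good C → ∀ r F, NF C r F →
  GrA (BB F) ∧ GrA (RD C r) ∧ (∀ k l, l ≤ k → F k l = RD C r k) ∧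
  ∃ L : ℕ, ∀ k l, k * L + 1 ≤ l → F k l = ⊥

/-- MODULE ABK (50 lines, uses StAGR).
PROOF.  `BB F k` is the direct sum of the `F k l τ^l`, `l < k L + 1`, so its dimension is
`∑_l finrank (F k l)`, and `F k 0 = RD C r k`; `wF F k = ∑ᶠ_l finrank (F k (l+1))`, a finite sum. -/
def StABK : Prop := ∀ (C : Cone), Good C → ∀ r F, NF C r F → ∀ k,
  (Module.finrank ℂ (BB F k) : ℝ) = Module.finrank ℂ (RD C r k) + wF F k

/-- MODULE ANN (150 lines).
PROOF.  Let `e` be minimal such that there are `a_1..a_e ∈ G 1` with property `fg` (a basis of `G 1` has it, by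
`gen`).  Suppose they are algebraically dependent: `h ≠ 0`, `h(a) = 0`; as `a_i ∈ G 1` and `G` is
independent every homogeneous component of `h` vanishes at `a`, so we may assume `h` homogeneous of degree
`j`, and `j ≥ 1` (`S` is not the zero ring).  `h(c) ≠ 0` for some `c ∈ ℂ^e` (`ℂ` infinite), and some `c_i ≠ 0`;
renumber so that `c_e ≠ 0`.  Put `a'_e = a_e / c_e`, `a'_i = a_i - c_i a'_e` for `i < e`: the
`a'` span the same space, so `fg` holds for them, and `h(a) = 0` reads `h(a'_1 + c_1 a'_e, ..., c_e a'_e) = 0`,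
where the coefficient of `a'_e^j` is `h(c) ≠ 0`.  So `a'_e^j ∈ ∑_(i<e) a'_i G (j-1)`.  Let `D` be as in `fg`;
for `k ≥ D` `G k = ∑_(|α| = k - D) a'^α G D`.  If `k + 1 ≥ D + j` then every `a'^α y`, `|α| = k + 1 - D`, is in
`∑_(i<e) a'_i G k`: clear if some `α_i > 0`, `i < e`; otherwise `α = (0,..,0,|α|)`, `|α| ≥ j`.  So
`a'_1..a'_(e-1)` has property `fg`, a contradiction to the minimality of `e`. -/
def StANN : Prop := ∀ (S : Type) [CommRing S] [IsDomain S] [Algebra ℂ S] (G : ℕ → Submodule ℂ S),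
  GrA G → ∃ (e : ℕ) (a : Fin e → S), NN G a

/-- MODULE AGL (50 lines).
PROOF.  `ac a p x = (aeval a p) x`.  `act`: `a_i ∈ G 1`, `GrA.mul`.  `FgM` with `zm`: `NN.fg`.  Torsion free: `aeval a`
is injective and `S` is a domain.  `1 ∈ G 0` is not zero. -/
def StAGL : Prop := ∀ (S : Type) [CommRing S] [IsDomain S] [Algebra ℂ S] (G : ℕ → Submodule ℂ S),
  GrA G → ∀ (e : ℕ) (a : Fin (e + 1) → S), NN G a → Lat (ac a) G

/-- MODULE ATD (150 lines, uses StAGR).
PROOF.  (B) `L` = fraction field of `QQ m`, of transcendence degree `m + 1` over `ℂ` (it is the fraction field of a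
polynomial ring in `m + 1` variables).  `a` is algebraically independent in `L`; show that `L` is algebraic over
the subfield `L₀` generated by `a`.  Every `b ∈ BB F i` is integral over `ℂ[a]`: `b` maps the finitely generated
`ℂ[a]`-module spanned by `G 0, ..., G D` (`= ⋃ G k` by `fg`) to itself and the module contains `1`.
`τ` is algebraic: for `0 ≠ s ∈ R (d)` (exists: some `X_i ≠ 0` by `Good.Xpos`, `X_i^d ∈ R d`; `U` is not empty as
`Δ ≠ 0`) both `s` and `s τ` are in `BB F 1` (`F 1 0 = F 1 1`).  `z_j`: by `Good.crd` `z_j p₁^α ∈ R (α d₁ + w_j)`; the `d`-th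
power of it is in `R (d (α d₁ + w_j)) = F _ 0`, and `p₁^(α d) ∈ R (d α d₁)`; `p₁ ≠ 0`; so `z_j^d` is a quotient of
elements of `⋃ BB F i`, hence algebraic over `L₀`, and so is `z_j`.  So `a` is a transcendence basis and
`e = m + 1` (cardinality of transcendence bases).  (R) The same with the fraction field of the polynomials in
`z_1..z_m`. -/
def StATD : Prop := ∀ (C : Cone), Good C → ∀ r F, NF C r F →
  (∀ (e : ℕ) (a : Fin e → QQ C.m), NN (BB F) a → e = C.m + 1) ∧
  ∀ (e : ℕ) (a : Fin e → MvPolynomial (Fin C.m) ℂ), NN (RD C r) a → e = C.m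

/-- MODULE ABD (100 lines).
PROOF.  `i = 1`: let `D` be as in `NN.fg`, `k ≥ D`, `k ≥ 1`, `y_1..y_q` a basis of `G k`.
`b y_i ∈ G (k+1)`, so `b y_i = ∑_(j,l) c_ijl a_j y_l` with constants `c_ijl`.  Apply `φ` and choose `i` with `|φ y_i|`
maximal: `|φ b| |φ y_i| ≤ (∑_j |φ a_j|) q max |c| |φ y_i|`.  If `φ y_i ≠ 0` divide.  If all `φ y_l = 0` then `φ = 0` on
`G k`, `φ(b)^k = φ(b^k) = 0` (`b^k ∈ G k`), so `φ b = 0`.  `i = 0`: constants.  In general: `G i` is spanned by products
of `i` elements of `G 1` (`gen`); sums and products of bounds. -/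
def StABD : Prop := ∀ (S : Type) [CommRing S] [IsDomain S] [Algebra ℂ S] (G : ℕ → Submodule ℂ S),
  GrA G → ∀ (e : ℕ) (a : Fin e → S), NN G a → ∀ i, ∀ b ∈ G i, ∃ K : ℝ, 0 ≤ K ∧
    ∀ φ : S →ₐ[ℂ] ℂ, ‖φ b‖ ≤ K * (∑ j, ‖φ (a j)‖) ^ i

/-- MODULE AJC (100 lines; Jacobian criterion).
PROOF.  The fraction field `L` of the polynomial ring has transcendence degree `M`, so `X_l` is algebraic over the
field generated by `a`: there is a polynomial `f_l ≠ 0` in variables `v_1..v_M, t` with `f_l(a, X_l) = 0`; choose it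
of minimal degree in `t` (`≥ 1`, as `a` is algebraically independent).  Then `(∂_t f_l)(a, X_l) ≠ 0`.
Differentiate with respect to `X_j`: `∑_i (∂_(v_i) f_l)(a, X_l) ∂_j a_i + (∂_t f_l)(a, X_l) δ_lj = 0`.  In matrix form
`E · (∂_j a_i)_(i,j) = - diag ((∂_t f_l)(a, X_l))`, so `det E · jac a ≠ 0`. -/
def StAJC : Prop := ∀ (M : ℕ) (a : Fin M → MvPolynomial (Fin M) ℂ), AlgebraicIndependent ℂ a →
  Pool.Agent.Helper52.KP.jac a ≠ 0

end Pool.Agent.Helper5.KPA
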