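import Pool.Agent.Helper5.KPA.Asm1
import Pool.Agent.Helper11.KPA.M_MRC
import Pool.Agent.Helper30.KPA.M_MSH
import Pool.Agent.Helper31.KPA.M_TJS
import Pool.Agent.Helper51.KPA.M_MLO
import Pool.Agent.Helper66.KPA.M_MGU
import Pool.Agent.Helper87.KPA.M_TFB
import Pool.Agent.Helper97.KPA.M_MLS
import Pool.Agent.Helper65.KPV.All
import Pool.Agent.Helper68.KPR.All
import Pool.Agent.Helper85.KPA.FinC

/-!
# PROJECT KP, chapters A and T: assembly
-/

set_option autoImplicit false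

namespace Pool.Agent.Helper5.KPA

open Pool.Agent Pool.Agent.Helper52.KP

theorem mMSH : StMSH := Helper30.KPA.hMSH
theorem mMLO : StMLO := Helper51.KPA.hMLO mMVV mMSU mMSH mAGR
theorem mMLS : StMLS := Helper97.KPA.hMLS mMVV mMSU mMSH mAGR
theorem mMGU : StMGU := Helper66.KPA.hMGU mMVV mAGR
theorem mMRC : StMRC := Helper11.KPA.hMRC Helper85.KPA.cCOP
theorem mTJS : StTJS := Helper31.KPA.hTJS mAJC
theorem mTFB (hTIG : StTIG) : StTFB :=
  Helper87.KPA.hTFB mTRC mTIN mTHO hTIG mTJS mTNB mAJC mABD mAGR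
theorem mAVL : StAVL := Helper65.KPV.aAVL mAGR mANN mATD
theorem mARF : StARF := Helper68.KPR.arf mAGR mAJC mTRL Helper85.KPA.cCBD

/-- the main statement of chapter A, from the module TIG -/
theorem asmALG (hTIG : StTIG) : StALG :=
  mAFI mAGR mABK mANN mAGL mATD mADU (mTFB hTIG) mAVL Helper85.KPA.cCOP mARF mMVV mMSU mMGU
    (mMIJ Helper85.KPA.cCOP) mMTE mMLO mMLS mMNU mMTG mMRA mMRC mMRN

end Pool.Agent.Helper5.KPA
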