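import Pool.Agent.Helper10.KPA.M_AJC
import Pool.Agent.Helper13.KPA.M_TRL
import Pool.Agent.Helper15.KPA.M_ANN
import Pool.Agent.Helper15.KPA.M_MSU
import Pool.Agent.Helper16.KPA.M_ANO
import Pool.Agent.Helper19.KPA.M_MTG
import Pool.Agent.Helper19.KPA.M_TAD
import Pool.Agent.Helper2.KPA.M_ACN
import Pool.Agent.Helper2.KPA.M_AHN
import Pool.Agent.Helper21.KPA.M_AKA
import Pool.Agent.Helper21.KPA.M_MIJ
import Pool.Agent.Helper22.KPA.M_ATD
import Pool.Agent.Helper24.KPA.M_MRN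
import Pool.Agent.Helper27.KPA.M_MVV
import Pool.Agent.Helper31.KPA.M_TSC
import Pool.Agent.Helper34.KPA.M_ABA
import Pool.Agent.Helper34.KPA.M_TPE
import Pool.Agent.Helper38.KPA.M_ADU
import Pool.Agent.Helper42.KPA.M_ARS
import Pool.Agent.Helper45.KPA.M_TEV
import Pool.Agent.Helper6.KPA.M_MNU
import Pool.Agent.Helper63.KPA.M_TIN
import Pool.Agent.Helper64.KPA.M_MRA
import Pool.Agent.Helper64.KPA.M_TNB
import Pool.Agent.Helper72.KPA.M_ABK
import Pool.Agent.Helper73.KPA.M_AGR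
import Pool.Agent.Helper73.KPA.M_MTE
import Pool.Agent.Helper76.KPA.M_TRC
import Pool.Agent.Helper78.KPA.M_AFI
import Pool.Agent.Helper80.KPA.M_AFG
import Pool.Agent.Helper80.KPA.M_TAF
import Pool.Agent.Helper81.KPA.M_ALP
import Pool.Agent.Helper85.KPA.M_AEQ
import Pool.Agent.Helper9.KPA.M_AGL
import Pool.Agent.Helper9.KPA.M_ALA
import Pool.Agent.Helper98.KPA.M_THO
import Pool.Agent.Helper99.KPA.M_ABD

/-!
# PROJECT KP, chapters A and T: assembly, first part
-/

set_option autoImplicit false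

namespace Pool.Agent.Helper5.KPA

open Pool.Agent

theorem mAGR : StAGR := Helper73.KPA.hAGR
theorem mABK : StABK := Helper72.KPA.hABK mAGR
theorem mANN : StANN := Helper15.KPA.hANN
theorem mAGL : StAGL := Helper9.KPA.hAGL
theorem mATD : StATD := Helper22.KPA.hATD mAGR
theorem mABD : StABD := Helper99.KPA.hABD
theorem mAJC : StAJC := Helper10.KPA.hAJC
theorem mABA : StABA := Helper34.KPA.hABA
theorem mALP : StALP := Helper81.KPA.hALP mABA Helper80.KPA.hAFG Helper16.KPA.hANO Helper2.KPA.hAHN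
  (Helper2.KPA.hACN Helper2.KPA.hAHN)
theorem mALA : StALA := Helper9.KPA.hALA mALP (Helper85.KPA.hAEQ Helper42.KPA.hARS)
theorem mADU : StADU := Helper38.KPA.hADU mABA Helper21.KPA.hAKA mALA
theorem mTRC : StTRC := Helper76.KPA.hTRC Helper34.KPA.hTPE
theorem mTRL : StTRL := Helper13.KPA.hTRL
theorem mTIN : StTIN := Helper63.KPA.hTIN Helper80.KPA.hTAF mTRL
theorem mTHO : StTHO := Helper98.KPA.hTHO
theorem mTEV : StTEV := Helper45.KPA.hTEV
theorem mTAD : StTAD := Helper19.KPA.hTAD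
theorem mTSC : StTSC := Helper31.KPA.hTSC
theorem mTNB : StTNB := Helper64.KPA.hTNB mAGR
theorem mMVV : StMVV := Helper27.KPA.hMVV
theorem mMSU : StMSU := Helper15.KPA.hMSU mMVV mAGR
theorem mMTE : StMTE := Helper73.KPA.hMTE
theorem mMNU : StMNU := Helper6.KPA.hMNU
theorem mMTG : StMTG := Helper19.KPA.hMTG mMVV mMSU
theorem mMRA : StMRA := Helper64.KPA.hMRA
theorem mMRN : StMRN := Helper24.KPA.hMRN
theorem mMIJ (hCOP : StCOP) : StMIJ := Helper21.KPA.hMIJ mMVV mMSU hCOP mAGR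
theorem mAFI : StAFI := Helper78.KPA.hAFI

end Pool.Agent.Helper5.KPA
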