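import Pool.Agent.Helper52.KP.Itf

/-!
# PROJECT KP (MP_26be5b_ag), chapters A and T: definitions

Graded modules over polynomial rings are families `M : ℕ → Submodule ℂ V` with an action
`ι : MvPolynomial (Fin s) ℂ →ₐ[ℂ] Module.End ℂ V`.
-/

set_option autoImplicit false

namespace Pool.Agent.Helper5.KPA

open Pool.Agent.Helper52.KP MvPolynomial

/-- homogeneous polynomials of degree `i` in `s` variables (`0` if `i < 0`) -/
noncomputable def hp (s : ℕ) (i : ℤ) : Submodule ℂ (MvPolynomial (Fin s) ℂ) :=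
  if 0 ≤ i then homogeneousSubmodule (Fin s) ℂ i.toNat else ⊥

/-- the number of monomials of degree `i` in `s` variables -/
noncomputable def hn (s : ℕ) (i : ℤ) : ℝ := Module.finrank ℂ (hp s i)

section Graded

variable {s : ℕ} {V : Type} [AddCommGroup V] [Module ℂ V]

/-- a graded module over the polynomial ring in `s` variables -/
structure Gr (ι : MvPolynomial (Fin s) ℂ →ₐ[ℂ] Module.End ℂ V) (M : ℕ → Submodule ℂ V) : Prop where
  ind : iSupIndep M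
  act : ∀ k i, ∀ x ∈ M k, ι (X i) x ∈ M (k + 1)
  fd : ∀ k, FiniteDimensional ℂ (M k)

/-- `M' ⊆ M` is a graded submodule and `M` is finitely generated modulo `M'` -/
structure FgM (ι : MvPolynomial (Fin s) ℂ →ₐ[ℂ] Module.End ℂ V) (M' M : ℕ → Submodule ℂ V) :
    Prop where
  le : ∀ k, M' k ≤ M k
  act : ∀ k i, ∀ x ∈ M' k, ι (X i) x ∈ M' (k + 1)
  fg : ∃ D : ℕ, ∀ k, D ≤ k → ∀ x ∈ M (k + 1), ∃ y : Fin s → V, (∀ i, y i ∈ M k) ∧
    x - ∑ i, ι (X i) (y i) ∈ M' (k + 1)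

/-- the zero graded module -/
def zm : ℕ → Submodule ℂ V := fun _ => ⊥

/-- nonzero finitely generated torsion free graded module -/
structure Lat (ι : MvPolynomial (Fin s) ℂ →ₐ[ℂ] Module.End ℂ V) (M : ℕ → Submodule ℂ V) : Prop where
  gr : Gr ι M
  fg : FgM ι zm M
  tf : ∀ (a : MvPolynomial (Fin s) ℂ) (x : V), a ≠ 0 → x ∈ (⨆ k, M k) → ι a x = 0 → x = 0
  ne : ∃ k, M k ≠ ⊥

/-- `t` (degrees `dt`) is a maximal family independent modulo `M'`, and `g M ⊆ M' + ∑ A t_j` -/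
structure Bas (ι : MvPolynomial (Fin s) ℂ →ₐ[ℂ] Module.End ℂ V) (M' M : ℕ → Submodule ℂ V)
    {c : ℕ} (t : Fin c → V) (dt : Fin c → ℕ) (γ : ℕ) (g : MvPolynomial (Fin s) ℂ) : Prop where
  mem : ∀ j, t j ∈ M (dt j)
  ind : ∀ α : Fin c → MvPolynomial (Fin s) ℂ, ∑ j, ι (α j) (t j) ∈ (⨆ k, M' k) → α = 0
  g0 : g ≠ 0
  gh : g ∈ hp s γ
  exp : ∀ k, ∀ x ∈ M k, ∃ α : Fin c → MvPolynomial (Fin s) ℂ,
    (∀ j, α j ∈ hp s ((k : ℤ) + γ - dt j)) ∧ ι g x - ∑ j, ι (α j) (t j) ∈ M' (k + γ)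

/-- homomorphisms `M → A` of degree `k - s` -/
def Dl (ι : MvPolynomial (Fin s) ℂ →ₐ[ℂ] Module.End ℂ V) (M : ℕ → Submodule ℂ V) (k : ℕ) :
    Submodule ℂ ((i : ℕ) → (M i →ₗ[ℂ] MvPolynomial (Fin s) ℂ)) where
  carrier := {φ | (∀ (i : ℕ) (x : M i), φ i x ∈ hp s ((i : ℤ) + k - s)) ∧
    ∀ (i : ℕ) (l : Fin s) (x : M i) (y : M (i + 1)), (y : V) = ι (X l) x →
      φ (i + 1) y = X l * φ i x}
  add_mem' := by
    rintro φ ψ ⟨h1, h2⟩ ⟨h3, h4⟩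
    refine ⟨fun i x => (hp s _).add_mem (h1 i x) (h3 i x), fun i l x y h => ?_⟩
    simp only [Pi.add_apply, LinearMap.add_apply, h2 i l x y h, h4 i l x y h, mul_add]
  zero_mem' := ⟨fun i x => (hp s _).zero_mem, fun i l x y h => by simp⟩
  smul_mem' := by
    rintro a φ ⟨h1, h2⟩
    refine ⟨fun i x => (hp s _).smul_mem a (h1 i x), fun i l x y h => ?_⟩
    simp only [Pi.smul_apply, LinearMap.smul_apply, h2 i l x y h, mul_smul_comm]

end Graded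

/-- the polynomial ring in `X_1, ..., X_e` inside the polynomial ring in `X_0, ..., X_e` -/
noncomputable abbrev up {e : ℕ} (α : MvPolynomial (Fin e) ℂ) : MvPolynomial (Fin (e + 1)) ℂ :=
  rename Fin.succ α

/-- the action of the smaller polynomial ring -/
noncomputable def low {e : ℕ} {V : Type} [AddCommGroup V] [Module ℂ V]
    (ι : MvPolynomial (Fin (e + 1)) ℂ →ₐ[ℂ] Module.End ℂ V) :
    MvPolynomial (Fin e) ℂ →ₐ[ℂ] Module.End ℂ V := ι.comp (rename Fin.succ)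

/-- the diagonal action on `A^ρ` -/
noncomputable def dg (s ρ : ℕ) :
    MvPolynomial (Fin s) ℂ →ₐ[ℂ] Module.End ℂ (Fin ρ → MvPolynomial (Fin s) ℂ) :=
  Algebra.lsmul ℂ ℂ (Fin ρ → MvPolynomial (Fin s) ℂ)

/-- `f` is homogeneous of degree `δ` and monic in `X_0` -/
def Mo {e : ℕ} (f : MvPolynomial (Fin (e + 1)) ℂ) (δ : ℕ) : Prop :=
  f ∈ hp (e + 1) δ ∧ coeff (Finsupp.single 0 δ) f = 1

/-- the rank of `L / (f A^ρ)` over the smaller polynomial ring is `c` (for sets `L` of vectors) -/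
def Mx {e ρ : ℕ} (f : MvPolynomial (Fin (e + 1)) ℂ) (L : Set (Fin ρ → MvPolynomial (Fin (e + 1)) ℂ))
    (c : ℕ) : Prop :=
  ∃ (t : Fin c → Fin ρ → MvPolynomial (Fin (e + 1)) ℂ) (g : MvPolynomial (Fin e) ℂ), g ≠ 0 ∧
    (∀ j, t j ∈ L) ∧
    (∀ α : Fin c → MvPolynomial (Fin e) ℂ,
      (∃ y : Fin ρ → MvPolynomial (Fin (e + 1)) ℂ, ∑ j, up (α j) • t j = f • y) → α = 0) ∧
    ∀ x ∈ L, ∃ (α : Fin c → MvPolynomial (Fin e) ℂ) (y : Fin ρ → MvPolynomial (Fin (e + 1)) ℂ),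
      up g • x = ∑ j, up (α j) • t j + f • y

/-- the dual lattice in degree `k` -/
def Lst {e ρ : ℕ} (f : MvPolynomial (Fin (e + 1)) ℂ) (du : Fin ρ → ℕ)
    (L : ℕ → Submodule ℂ (Fin ρ → MvPolynomial (Fin (e + 1)) ℂ)) (k : ℕ) :
    Submodule ℂ (Fin ρ → MvPolynomial (Fin (e + 1)) ℂ) where
  carrier := {φ | (∀ i, φ i ∈ hp (e + 1) ((du i : ℤ) + k - (e + 1))) ∧
    ∀ j, ∀ x ∈ L j, f ∣ ∑ i, φ i * x i}
  add_mem' := by
    rintro φ ψ ⟨h1, h2⟩ ⟨h3, h4⟩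
    refine ⟨fun i => (hp _ _).add_mem (h1 i) (h3 i), fun j x hx => ?_⟩
    simp only [Pi.add_apply, add_mul, Finset.sum_add_distrib]
    exact dvd_add (h2 j x hx) (h4 j x hx)
  zero_mem' := ⟨fun i => (hp _ _).zero_mem, fun j x hx => by simp⟩
  smul_mem' := by
    rintro a φ ⟨h1, h2⟩
    refine ⟨fun i => (hp _ _).smul_mem a (h1 i), fun j x hx => ?_⟩
    simp only [Pi.smul_apply, smul_mul_assoc, ← Finset.smul_sum]
    exact (h2 j x hx).trans ⟨C a, by rw [mul_comm, ← smul_eq_C_mul]⟩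

/-- second order asymptotics of a function of `k ≥ 1`: `α k^e + γ k^(e-1) + O(k^(e-2))` -/
def Asy (e : ℕ) (h : ℕ → ℝ) (α γ : ℝ) : Prop :=
  ∃ K : ℝ, ∀ k : ℕ, 1 ≤ k → |h k - (α * (k : ℝ) ^ e + γ * (k : ℝ) ^ (e - 1))| * (k : ℝ) ^ 2 ≤
    K * (k : ℝ) ^ e

/-- first order asymptotics: `α k^e + O(k^(e-1))` -/
def Asz (e : ℕ) (h : ℕ → ℝ) (α : ℝ) : Prop :=
  ∃ K : ℝ, ∀ k : ℕ, 1 ≤ k → |h k - α * (k : ℝ) ^ e| * (k : ℝ) ≤ K * (k : ℝ) ^ e

end Pool.Agent.Helper5.KPA
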