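import Pool.Agent.Helper5.KPA.Defs

/-!
# PROJECT KP, chapters A and T: more definitions
-/

set_option autoImplicit false

namespace Pool.Agent.Helper5.KPA

open Pool.Agent.Helper52.KP MvPolynomial

section Rings

variable {S : Type} [CommRing S] [Algebra ℂ S]

/-- a graded algebra, generated in degree one, constants in degree zero -/
structure GrA (G : ℕ → Submodule ℂ S) : Prop where
  ind : iSupIndep G
  zero : G 0 = Submodule.span ℂ {1}
  fd : ∀ k, FiniteDimensional ℂ (G k)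
  mul : ∀ i j x y, x ∈ G i → y ∈ G j → x * y ∈ G (i + j)
  gen : ∀ k, G (k + 1) = Submodule.span ℂ {b | ∃ x ∈ G k, ∃ y ∈ G 1, b = x * y}

/-- `a` is a Noether normalization of `G` (elements of degree one) -/
structure NN (G : ℕ → Submodule ℂ S) {e : ℕ} (a : Fin e → S) : Prop where
  mem : ∀ i, a i ∈ G 1
  ai : AlgebraicIndependent ℂ a
  fg : ∃ D : ℕ, ∀ k, D ≤ k → ∀ x ∈ G (k + 1), ∃ y : Fin e → S, (∀ i, y i ∈ G k) ∧
    x = ∑ i, a i * y i

/-- the action of the polynomial ring on `S` through `a` -/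
noncomputable def ac {e : ℕ} (a : Fin e → S) : MvPolynomial (Fin e) ℂ →ₐ[ℂ] Module.End ℂ S :=
  (Algebra.lmul ℂ S).comp (aeval a)

end Rings

/-- polynomials in `τ` with coefficients in the coordinate ring of the chart -/
abbrev QQ (m : ℕ) : Type := Polynomial (MvPolynomial (Fin m) ℂ)

/-- polynomials in `τ` with coefficients in `R k` -/
def QR (C : Cone) (k : ℕ) : Submodule ℂ (QQ C.m) where
  carrier := {x | ∀ l, x.coeff l ∈ C.R k}
  add_mem' := fun h h' l => by rw [Polynomial.coeff_add]; exact (C.R k).add_mem (h l) (h' l)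
  zero_mem' := fun l => by rw [Polynomial.coeff_zero]; exact (C.R k).zero_mem
  smul_mem' := fun a x h l => by rw [Polynomial.coeff_smul]; exact (C.R k).smul_mem a (h l)

/-- `B_k = ⊕ F k l τ^l` -/
def BB {m : ℕ} (F : ℕ → ℕ → Submodule ℂ (MvPolynomial (Fin m) ℂ)) (k : ℕ) : Submodule ℂ (QQ m) where
  carrier := {x | ∀ l, x.coeff l ∈ F k l}
  add_mem' := fun h h' l => by rw [Polynomial.coeff_add]; exact (F k l).add_mem (h l) (h' l)
  zero_mem' := fun l => by rw [Polynomial.coeff_zero]; exact (F k l).zero_mem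
  smul_mem' := fun a x h l => by rw [Polynomial.coeff_smul]; exact (F k l).smul_mem a (h l)

/-- the section ring of `- r K` -/
def RD (C : Cone) (r : ℕ) (k : ℕ) : Submodule ℂ (MvPolynomial (Fin C.m) ℂ) := C.R (C.n * r * k)

/-- `𝒫[τ]` as a polynomial ring in `m + 1` variables, `τ = X_0` -/
noncomputable def toM (m : ℕ) : QQ m ≃ₐ[ℂ] MvPolynomial (Fin (m + 1)) ℂ := (finSuccEquiv ℂ m).symm

/-- the polynomial map given by `a` -/
noncomputable def evm {M : ℕ} (a : Fin M → MvPolynomial (Fin M) ℂ) (ζ : Fin M → ℂ) : Fin M → ℂ :=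
  fun i => ev (a i) ζ

/-- fraction field of the polynomial ring -/
abbrev KK (M : ℕ) : Type := FractionRing (MvPolynomial (Fin M) ℂ)

/-- embedding of the polynomial ring in its fraction field -/
noncomputable abbrev emb {M : ℕ} (p : MvPolynomial (Fin M) ℂ) : KK M := algebraMap _ (KK M) p

/-- `T` is the trace from rational functions of `ζ` to rational functions of `v = a(ζ)`, of degree
`δ` -/
structure IsTr {M : ℕ} (a : Fin M → MvPolynomial (Fin M) ℂ) (δ : ℕ) (T : KK M →+ KK M) : Prop where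
  pos : 0 < δ
  lin : ∀ (α : MvPolynomial (Fin M) ℂ) (x : KK M), T (emb (aeval a α) * x) = emb α * T x
  one : T 1 = δ
  fib : ∀ p q : MvPolynomial (Fin M) ℂ, q ≠ 0 → ∃ N D : MvPolynomial (Fin M) ℂ, D ≠ 0 ∧
    T (emb p / emb q) = emb N / emb D ∧ ∀ v : Fin M → ℂ, ev D v ≠ 0 →
      ∃ Z : Finset (Fin M → ℂ), Z.card = δ ∧ (∀ ζ, ζ ∈ Z ↔ evm a ζ = v) ∧
        (∀ ζ ∈ Z, ev q ζ ≠ 0) ∧ ev N v / ev D v = ∑ ζ ∈ Z, ev p ζ / ev q ζ

/-- growth condition for `s ∈ R (n r k - n)`: asymptotically `s ∈ F ^ (> l - ℓ)` -/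
def Gro {m : ℕ} (F : ℕ → ℕ → Submodule ℂ (MvPolynomial (Fin m) ℂ)) (r k l : ℕ) (ℓ : ℝ)
    (s : MvPolynomial (Fin m) ℂ) : Prop :=
  ∃ j lam : ℕ, 1 ≤ j ∧ s ^ (r * j) ∈ F (j * (r * k - 1)) lam ∧ ((r * j : ℕ) : ℝ) * (l - ℓ) < lam

end Pool.Agent.Helper5.KPA
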