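import Pool.Agent.Helper5.KPA.StT
import Pool.Agent.Helper52.KP.StW

/-!
# PROJECT KP, chapters A and T: interfaces of the parts V (valuations), C (coprimality), R (codifferent)
-/

set_option autoImplicit false

namespace Pool.Agent.Helper5.KPA

open Pool.Agent.Helper52.KP MvPolynomial

/-- The valuations of the vertical prime divisors of `B = ⊕ BB F k`: defined on nonzero elements of
`QR C (n r k)` (these are quotients of elements of `B`), `v i τ = - b i < 0`. -/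
structure VD (C : Cone) (r : ℕ) (F : ℕ → ℕ → Submodule ℂ (MvPolynomial (Fin C.m) ℂ)) (h : ℕ)
    (v : Fin h → QQ C.m → ℤ) (b : Fin h → ℕ) : Prop where
  bpos : ∀ i, 1 ≤ b i
  mul : ∀ i k k' x y, x ∈ QR C (C.n * r * k) → y ∈ QR C (C.n * r * k') → x ≠ 0 → y ≠ 0 →
    v i (x * y) = v i x + v i y
  add : ∀ i k x y, x ∈ QR C (C.n * r * k) → y ∈ QR C (C.n * r * k) → x ≠ 0 → y ≠ 0 → x + y ≠ 0 →
    min (v i x) (v i y) ≤ v i (x + y)
  tau : ∀ i, v i Polynomial.X = -(b i : ℤ)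
  cst : ∀ i (c : ℂ), c ≠ 0 → v i (Polynomial.C (MvPolynomial.C c)) = 0
  nonneg : ∀ i k x, x ∈ BB F k → x ≠ 0 → 0 ≤ v i x
  /-- invariance under rotations of `τ`: homogeneous components have at least the same value -/
  hom : ∀ i k x l, x ∈ QR C (C.n * r * k) → x.coeff l ≠ 0 →
    v i x ≤ v i (Polynomial.C (x.coeff l)) - l * b i
  mem : ∀ k x, x ∈ QR C (C.n * r * k) → x ≠ 0 → (∀ i, 0 ≤ v i x) → x ∈ BB F k
  unit : ∀ i, ∃ x ∈ BB F 1, x ≠ 0 ∧ v i x = 0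
  unif : ∀ i, ∃ k, ∃ x ∈ BB F k, x ≠ 0 ∧ v i x = 1
  sep : ∀ i, ∃ k, ∃ x ∈ BB F k, x ≠ 0 ∧ v i x = 0 ∧ ∀ j, j ≠ i → 1 ≤ v j x
  /-- `dim (B / q)_k ≥ κ k^(m-1)` -/
  gro : ∀ i, ∃ κ : ℝ, 0 < κ ∧ ∃ k₀ : ℕ, ∀ k, k₀ ≤ k → ∀ W : Submodule ℂ (QQ C.m),
    (∀ x ∈ W, x ∈ BB F k ∧ (x ≠ 0 → 1 ≤ v i x)) →
    κ * (k : ℝ) ^ (C.m - 1) ≤ (Module.finrank ℂ (BB F k) : ℝ) - Module.finrank ℂ W

/-- PART V (target). -/
def StAVL : Prop := ∀ (C : Cone), Good C → ∀ r F, NF C r F →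
  ∃ (h : ℕ) (v : Fin h → QQ C.m → ℤ) (b : Fin h → ℕ), VD C r F h v b

/-- PART C (target 1): bounded homogeneous polynomials are regular functions on the orbit. -/
def StCBD : Prop := ∀ (C : Cone), Good C → ∀ (k : ℕ) (f : MvPolynomial (Fin C.m) ℂ),
  (∀ (c : ℂ) z, ev f (scl C.w c z) = c ^ k * ev f z) →
  (∃ B : ℝ, ∀ z ∈ C.U, ‖ev f z‖ ≤ B * C.sz z ^ k) → f ∈ C.R k

/-- PART C (target 2): a generic linear form is prime to a given `u`. -/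
def StCOP : Prop := ∀ (C : Cone), Good C → ∀ r F, NF C r F → ∀ (k₀ : ℕ) (u : QQ C.m),
  u ∈ QR C k₀ → u ≠ 0 → ∃ ℓ ∈ C.R 1, ℓ ≠ 0 ∧ ∀ (a k k' : ℕ) (x z : QQ C.m), x ∈ QR C k →
    z ∈ QR C k' → Polynomial.C ℓ ^ a * x = u * z → x ≠ 0 → k₀ ≤ k ∧ ∃ y ∈ QR C (k - k₀), x = u * y

/-- PART R (target): every homomorphism from `R^(d)` to a Noether normalization comes from a form. -/
def StARF : Prop := ∀ (C : Cone), Good C → ∀ r F, NF C r F →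
  ∀ a : Fin C.m → MvPolynomial (Fin C.m) ℂ, NN (RD C r) a → ∀ k, 1 ≤ k →
    Module.finrank ℂ (Dl (ac a) (RD C r) k) ≤ Module.finrank ℂ (C.R (C.n * r * k - C.n))

end Pool.Agent.Helper5.KPA
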