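import Pool.Agent.Helper5.KPA.Defs

/-!
# PROJECT KP, chapter A, part D: duality for the second coefficient of Hilbert functions

`A` = polynomial ring in `X_0, ..., X_e`, `A'` = polynomial ring in `X_1, ..., X_e` (`up`).
All modules are independent (statements used are hypotheses).
TARGET: `StADU`.
-/

set_option autoImplicit false

namespace Pool.Agent.Helper5.KPA

open Pool.Agent.Helper52.KP MvPolynomial

/-- MODULE ABA (150 lines).
PROOF.  By `FgM.fg` and induction on `k` every `x ∈ M k` is, modulo `M' k`, a combination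
`∑ ι (β_i) (w_i)`, `β_i ∈ hp s (k - deg w_i)`, of the finitely many elements `w_i` of bases of
`M 0, ..., M D`.  Call a subfamily independent if it satisfies the condition `Bas.ind`; let `t_1..t_c` be a
maximal independent subfamily of the `w_i`.  (The empty family is independent.)  Each `w_i` satisfies
`ι g_i w_i - ∑ ι α_j t_j ∈ ⨆ M'` for some `g_i ≠ 0`: if `w_i` is some `t_j` take `g_i = 1`, otherwise the
family with `w_i` added is dependent and the coefficient of `w_i` in the relation is not zero (`t` is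
independent).  Homogeneous components: if `∑_k x_k ∈ ⨆ M'` with `x_k ∈ M k` (finite sum) then every
`x_k ∈ M' k` (`iSupIndep M`, `M' ≤ M`).  Choose `a` with `(g_i)_a ≠ 0` and take the component of degree
`a + deg w_i` of the relation: so we may assume that `g_i` is homogeneous of degree `a_i` and
`α_j ∈ hp s (a_i + deg w_i - dt_j)`.  Put `g = ∏ g_i`, `γ = ∑ a_i`.  For `x = ∑ ι β_i w_i + m'`:
`ι g x = ∑ ι (β_i g / g_i) (ι g_i w_i) + ι g m'`. -/
def StABA : Prop := ∀ (s : ℕ) (V : Type) [AddCommGroup V] [Module ℂ V]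
  (ι : MvPolynomial (Fin s) ℂ →ₐ[ℂ] Module.End ℂ V) (M' M : ℕ → Submodule ℂ V),
  Gr ι M → FgM ι M' M →
  ∃ (c : ℕ) (t : Fin c → V) (dt : Fin c → ℕ) (γ : ℕ) (g : MvPolynomial (Fin s) ℂ),
    Bas ι M' M t dt γ g

/-- MODULE AFG (100 lines).
PROOF.  Let `D` be as in `FgM.fg` for the zero submodule: for `k ≥ D` every `x ∈ M k` is a sum of terms
`ι (X^α) y`, `y ∈ M D`, `|α| = k - D` (induction).  Claim: the condition holds with `D' = D + δ`.  Let
`k ≥ D'`, `x = ι (X^α) y ∈ M (k+1)`, `|α| = k + 1 - D ≥ δ`.  If `α_i > 0` for some `i ≥ 1`: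
`x = ι (X_i) (ι (X^(α - e_i)) y)`.  Otherwise `X^α = X_0^(b+δ)`, and `f - X_0^δ` is a sum `∑_(i ≥ 1) X_i q_i`,
`q_i` homogeneous of degree `δ - 1` (every monomial of `f` except `X_0^δ` contains some `X_i`, `i ≥ 1`), so
`x = ι f (ι (X_0^b) y) - ∑_(i ≥ 1) ι (X_i) (ι (q_i X_0^b) y)`, and `ι f (ι (X_0^b) y) ∈ M' (k+1)`.  If `δ = 0`
then `f = 1` and `M = M'`. -/
def StAFG : Prop := ∀ (e δ : ℕ) (V : Type) [AddCommGroup V] [Module ℂ V]
  (ι : MvPolynomial (Fin (e + 1)) ℂ →ₐ[ℂ] Module.End ℂ V) (M' M : ℕ → Submodule ℂ V)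
  (f : MvPolynomial (Fin (e + 1)) ℂ), Gr ι M → FgM ι zm M → (∀ k, M' k ≤ M k) →
  (∀ k i, ∀ x ∈ M' k, ι (X i) x ∈ M' (k + 1)) → Mo f δ →
  (∀ k, ∀ x ∈ M k, ι f x ∈ M' (k + δ)) → Gr (low ι) M ∧ FgM (low ι) M' M

/-- MODULE ANO (100 lines).
PROOF.  Independence: look at one coordinate `x i`, where the degrees `k + c i` are different for different
`k` (homogeneous components).  Finite dimension: `hp s i` is finite-dimensional.  Finite generation: let `N` be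
the `A`-submodule of `A^ρ` spanned by `⋃ M k`; it is finitely generated (`IsNoetherian`), so it is generated
by finitely many elements of `⋃ M k`, say by elements of `M 0, ..., M D`.  Let `k ≥ D`, `x ∈ M (k+1)`:
`x = ∑ a_j w_j`, `w_j ∈ M (k_j)`, `k_j ≤ D`; taking components of degree `k + 1` we may assume that `a_j` is
homogeneous of degree `k + 1 - k_j ≥ 1`, so `a_j = ∑ X_i b_ij` and `x = ∑ X_i (∑ b_ij w_j)`. -/
def StANO : Prop := ∀ (s ρ : ℕ) (c : Fin ρ → ℤ) (M : ℕ → Submodule ℂ (Fin ρ → MvPolynomial (Fin s) ℂ)),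
  0 < ρ → (∀ k, ∀ x ∈ M k, ∀ i, x i ∈ hp s (k + c i)) →
  (∀ k (l : Fin s), ∀ x ∈ M k, dg s ρ (X l) x ∈ M (k + 1)) → Gr (dg s ρ) M ∧ FgM (dg s ρ) zm M

/-- MODULE AHN (100 lines).
PROOF.  For `i ≥ 0` `hp s i` has the basis of the monomials of degree `i`, so
`hn s i = Nat.choose (i + s - 1) (s - 1) = (i+1)...(i+s-1) / (s-1)!` (number of `α : Fin s → ℕ` with sum `i`:
`Sym.card_sym_eq_choose` or `Finset.finsuppAntidiag`), and `hn s i = 0` for `i < 0`.  Expand the product: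
`∏_(j=1)^(s-1) (k + a + j) = k^(s-1) + ((s-1) a + s (s-1) / 2) k^(s-2) + O(k^(s-3))`; the finitely many
`k` with `k + a < 0` are absorbed in the constant.  (For `s = 1` the product is empty and `hn 1 i = 1` for
`i ≥ 0`.) -/
def StAHN : Prop := ∀ (s : ℕ) (a : ℤ),
  Asz s (fun k => hn (s + 1) ((k : ℤ) + a)) (1 / (s.factorial : ℝ)) ∧
  Asy (s + 1) (fun k => hn (s + 2) ((k : ℤ) + a)) (1 / ((s + 1).factorial : ℝ))
    (((a : ℝ) + (s + 2) / 2) / (s.factorial : ℝ))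

/-- MODULE ACN (150 lines, uses StAHN).
PROOF.  Lower bound: for `α_j ∈ hp s (k - dt_j)` the elements `∑ ι α_j t_j` of `M k` are independent modulo
`M' k` (`Bas.ind`), so `finrank (M k) ≥ finrank (M' k) + ∑ hn s (k - dt_j)`.  Upper bound: let
`M'' k = M' k + {∑ ι α_j t_j : α_j ∈ hp s (k - dt_j)}`, of dimension `finrank (M' k) + ∑ hn s (k - dt_j)`; by
`Bas.exp` `ι g (M k) ⊆ M'' (k + γ)`.  As in StABA `M k = M' k + ∑_i ι (hp s (k - deg w_i)) w_i` for finitely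
many `w_i ∈ M (deg w_i)`.  So the linear map `⊕_i hp s (k - deg w_i) → M k / M'' k` is surjective and kills
`⊕_i g • hp s (k - deg w_i - γ)`; hence `finrank (M k) - finrank (M'' k) ≤
∑_i (hn s (k - deg w_i) - hn s (k - deg w_i - γ))`, which is `O(k^(s-2))` (`O(1/k)`, that is, zero for large
`k`, if `s = 1`) by StAHN (`s = 1`: `hn 1 = 1` for nonnegative arguments). -/
def StACN : Prop := ∀ (s : ℕ) (V : Type) [AddCommGroup V] [Module ℂ V]
  (ι : MvPolynomial (Fin (s + 1)) ℂ →ₐ[ℂ] Module.End ℂ V) (M' M : ℕ → Submodule ℂ V)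
  (c : ℕ) (t : Fin c → V) (dt : Fin c → ℕ) (γ : ℕ) (g : MvPolynomial (Fin (s + 1)) ℂ),
  Gr ι M → FgM ι M' M → Bas ι M' M t dt γ g →
  Asz s (fun k => (Module.finrank ℂ (M k) : ℝ) - Module.finrank ℂ (M' k) -
    ∑ j, hn (s + 1) ((k : ℤ) - dt j)) 0

/-- MODULE ARS (80 lines).
PROOF.  `Φ = finSuccEquiv ℂ e : A ≃ A'[X]`, `X_0 ↦ X`, `up α ↦ C α`.  `Φ f` is monic of degree `δ`: `f` is
homogeneous of degree `δ`, so `Φ f` has degree `≤ δ` and its coefficient of degree `δ` is a constant, namely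
`coeff (single 0 δ) f = 1`.  `Res p` = the coefficient of `X^(δ-1)` in `(Φ p) %ₘ (Φ f)`.  Linear over `A'`, and
`Res (f p) = 0`.  If `Φ p %ₘ Φ f ≠ 0` has degree `i < δ` with leading coefficient `b ≠ 0`, then
`X^(δ-1-i) (Φ p %ₘ Φ f)` has degree `δ - 1 < δ`, so it is `Φ (X_0^(δ-1-i) p) %ₘ Φ f` and
`Res (X_0^(δ-1-i) p) = b ≠ 0`. -/
def StARS : Prop := ∀ (e δ : ℕ) (f : MvPolynomial (Fin (e + 1)) ℂ), 1 ≤ δ → Mo f δ →
  ∃ Res : MvPolynomial (Fin (e + 1)) ℂ →ₗ[ℂ] MvPolynomial (Fin e) ℂ,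
    (∀ p, Res (f * p) = 0) ∧ (∀ α p, Res (up α * p) = α * Res p) ∧
    ∀ p, (∀ j : ℕ, Res (X 0 ^ j * p) = 0) → f ∣ p

/-- MODULE AEQ (200 lines, uses StARS).
PROOF.  `W = A^ρ / f A^ρ` is a free `A'`-module of rank `ρ δ` (division by the monic polynomial `f` in
`X_0`: basis `X_0^i e_l`, `i < δ`).  Pairing `⟨φ, x⟩ = Res (∑ φ_i x_i)` with values in `A'`, well defined on
`W × W`, `A'`-bilinear.  (N) If `⟨φ, x⟩ = 0` for all `φ ∈ A^ρ` then `x ∈ f A^ρ`: take `φ = X_0^j e_l`, so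
`f ∣ x_l` by StARS.  (P) `φ ∈ L* ⟺ ⟨φ, x⟩ = 0` for all `x ∈ L`: if `f ∣ ∑ φ_i x_i` then `Res = 0`; conversely
`X_0^j x ∈ L`, so `Res (X_0^j ∑ φ_i x_i) = 0` for all `j`.  (Q) For `x ∈ L`: `up g • x = ∑ up α_j • t_j + f y`, so
`⟨φ, t_j⟩ = 0` for all `j` implies `g ⟨φ, x⟩ = 0`, `⟨φ, x⟩ = 0`; so `L* = {φ : ⟨φ, t_j⟩ = 0 ∀ j}`.
Let `K` be the fraction field of `A'` and `W_K` the `K`-vector space of dimension `ρ δ` (for instance
`K ⊗ W`, or work with the coordinates in the basis, vectors in `K^(ρδ)`).  The classes of `t_1..t_c` are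
linearly independent in `W_K` (clear denominators, `Mx`), and so are the functionals `⟨·, t_j⟩` on `W_K`: if
`∑ α_j ⟨φ, t_j⟩ = 0` for all `φ` then `∑ up α_j t_j ∈ f A^ρ` by (N), `α = 0`.  So their common kernel has
dimension `ρδ - c`.  It is spanned over `K` by the classes of elements of `L*` (clear denominators, (Q)), and
`L*` modulo `f` spans a space of dimension `c'` (`t'` is a basis of it, by `Mx` for `L*`).  So
`c' = ρ δ - c`. -/
def StAEQ : Prop := ∀ (e ρ δ : ℕ) (f : MvPolynomial (Fin (e + 1)) ℂ), 1 ≤ δ → Mo f δ →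
  ∀ L : Submodule (MvPolynomial (Fin (e + 1)) ℂ) (Fin ρ → MvPolynomial (Fin (e + 1)) ℂ),
  (∀ x : Fin ρ → MvPolynomial (Fin (e + 1)) ℂ, f • x ∈ L) → ∀ c c' : ℕ,
    Mx f (L : Set (Fin ρ → MvPolynomial (Fin (e + 1)) ℂ)) c →
    Mx f {φ | ∀ x ∈ L, f ∣ ∑ i, φ i * x i} c' → c + c' = ρ * δ

/-- MODULE AKA (150 lines).
PROOF.  `L k = {x : ∀ i, x_i ∈ hp (k + δ - du_i), and ∃ m ∈ M k, ι f m = ∑ ι (x_i) (u_i)}`.  The linear map
`M k → L k`, `m ↦ x`, is well defined and bijective: existence of `x` by `Bas.exp` (`M' = zm`: the difference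
is in `⊥`), uniqueness by `Bas.ind` (`⨆ ⊥ = ⊥`), injective as `ι f m = 0` implies `m = 0` (`Lat.tf`).
Stability under `X_l` is clear.  `f p ∈ L k` for `p_i ∈ hp (k - du_i)`: `m = ∑ ι (p_i) (u_i)` (if
`k - du_i < 0` then `p_i = 0`).  Duals: `φ ∈ Dl ι M k ↦ (φ (du_i) (u_i))_i = (φ_i)`, `φ_i ∈ hp (du_i + k - (e+1))`.
By induction on the degree `φ (ι a m) = a φ(m)` for homogeneous `a`, so for `m ∈ M j` with coordinates `x`:
`f φ(m) = ∑ x_i φ_i`, so `f ∣ ∑ φ_i x_i`, and `φ` is determined by `(φ_i)` (`f ≠ 0`).  Conversely `(φ_i)` with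
`f ∣ ∑ φ_i x_i` for all `x ∈ L j` defines `φ(m) = (∑ φ_i x_i) / f`, homogeneous of degree
`(du_i + k - (e+1)) + (j + δ - du_i) - δ = j + k - (e+1)`, linear, compatible with the `X_l`.  So
`Dl ι M k ≃ Lst f du L k` (linear equivalence), finite-dimensional. -/
def StAKA : Prop := ∀ (e δ ρ : ℕ) (V : Type) [AddCommGroup V] [Module ℂ V]
  (ι : MvPolynomial (Fin (e + 1)) ℂ →ₐ[ℂ] Module.End ℂ V) (M : ℕ → Submodule ℂ V)
  (u : Fin ρ → V) (du : Fin ρ → ℕ) (f : MvPolynomial (Fin (e + 1)) ℂ),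
  Lat ι M → Bas ι zm M u du δ f →
  ∃ L : ℕ → Submodule ℂ (Fin ρ → MvPolynomial (Fin (e + 1)) ℂ),
    (∀ k, ∀ x ∈ L k, ∀ i, x i ∈ hp (e + 1) ((k : ℤ) + δ - du i)) ∧
    (∀ k (l : Fin (e + 1)), ∀ x ∈ L k, dg (e + 1) ρ (X l) x ∈ L (k + 1)) ∧
    (∀ (k : ℕ) (p : Fin ρ → MvPolynomial (Fin (e + 1)) ℂ),
      (∀ i, p i ∈ hp (e + 1) ((k : ℤ) - du i)) → f • p ∈ L k) ∧
    (∀ k, Module.finrank ℂ (L k) = Module.finrank ℂ (M k)) ∧
    ∀ k, FiniteDimensional ℂ (Dl ι M k) ∧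
      Module.finrank ℂ (Dl ι M k) = Module.finrank ℂ (Lst f du L k)

/-- MODULE ALP (150 lines, uses StABA StAFG StANO StAHN StACN).
PROOF.  `V = A^ρ`, `ι = dg`.  `F k = {f p : p_i ∈ hp (k + c_i - δ)} ⊆ L k`, of dimension
`∑ hn (e+1) (k + c_i - δ)` (`p ↦ f p` is injective).  StANO: `Gr`, `FgM` for `L`.  `f L k ⊆ F (k + δ)`: `f x = f p`
with `p = x`.  `F` is stable under the `X_l`.  StAFG: `Gr (low ι) L`, `FgM (low ι) F L`.  StABA for `low ι` (`e`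
variables) gives `c', t, dt, γ, g`, and StACN (`e = s + 1`):
`finrank (L k) = ∑ hn (e+1) (k + c_i - δ) + ∑_(j<c') hn e (k - dt_j) + O(k^(e-2))`; insert StAHN (second order for
`e + 1` variables, first order for `e` variables).  `Mx f (⋃ L k) c'`: `t_j ∈ L (dt_j)`; if
`∑ up α_j t_j = f y` then this element is in `⨆ F k`, so `α = 0`: split `y` into its components with
`y_i ∈ hp (k + c_i - δ)`, `k ∈ ℤ`; the left side has only components of degree `k ≥ 0` (components of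
`up α_j t_j` have degree `≥ dt_j`), and `f` is homogeneous of degree `δ`, so `y` has only components with
`k ≥ 0`.  The last condition of `Mx` is `Bas.exp` (elements of `F` are of the form `f y`). -/
def StALP : Prop := ∀ (e δ ρ : ℕ), 1 ≤ e → 1 ≤ δ → 1 ≤ ρ →
  ∀ (c : Fin ρ → ℤ) (f : MvPolynomial (Fin (e + 1)) ℂ), Mo f δ →
  ∀ L : ℕ → Submodule ℂ (Fin ρ → MvPolynomial (Fin (e + 1)) ℂ),
    (∀ k, ∀ x ∈ L k, ∀ i, x i ∈ hp (e + 1) ((k : ℤ) + c i)) →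
    (∀ k (l : Fin (e + 1)), ∀ x ∈ L k, dg (e + 1) ρ (X l) x ∈ L (k + 1)) →
    (∀ (k : ℕ) (p : Fin ρ → MvPolynomial (Fin (e + 1)) ℂ),
      (∀ i, p i ∈ hp (e + 1) ((k : ℤ) + c i - δ)) → f • p ∈ L k) →
    ∃ c' : ℕ, Mx f (⋃ k, (L k : Set (Fin ρ → MvPolynomial (Fin (e + 1)) ℂ))) c' ∧
      Asy e (fun k => (Module.finrank ℂ (L k) : ℝ)) ((ρ : ℝ) / e.factorial)
        ((∑ i, ((c i : ℝ) - δ + ((e : ℝ) + 1) / 2) + c') / (e - 1).factorial)

/-- MODULE ALA (150 lines, uses StALP StAEQ).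
PROOF.  StALP for `L` (`c_i = δ - du_i`) gives `c`, and for `L* k = Lst f du L k` (`c_i = du_i - (e+1)`;
stable under `X_l`; contains `f p` for `p_i ∈ hp (k + du_i - (e+1) - δ)`) gives `c'`.
`c + c' = ρ δ` by StAEQ for the `A`-submodule `Lt` of `A^ρ` spanned by `⋃ L k` : it contains `f A^ρ`
(`f (X^α e_i) ∈ L k` with `k = |α| + du_i`).  `Mx f Lt c` follows from `Mx f (⋃ L k) c`: every `x ∈ Lt` is a
finite sum of elements of the `L k` (the sum of the `L k` is stable under `A`).  `Mx f (Lt)* c'`: an element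
`φ` of `(Lt)* = {φ : f ∣ ∑ φ_i x_i ∀ x ∈ Lt}` is the sum of its components `φ_(k)`, `k ∈ ℤ`, with
`(φ_(k))_i ∈ hp (du_i + k - (e+1))`, and they are again in `(Lt)*` (`L` is graded, `f` is homogeneous).
They vanish for `k < e + 1 - max du_i` (all degrees negative).  Let `b = max du_i`.  For all `k` with
`φ_(k) ≠ 0`: `X_1^b φ_(k)` (the variable `X_1 = up (X 0)`, `e ≥ 1`) has index `k + b ≥ 0` and is in `L* (k+b)`.  So
`Mx f (⋃ L* k) c'` with `g, t'` gives `Mx f (Lt)* c'` with `g X_1^b, t'`.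
Then `γ' = (∑ (du_i - (e+1) - δ + (e+1)/2) + c') / (e-1)! = -(∑ (-du_i + (e+1)/2) + c) / (e-1)! = -γ`
by `c' = ρ δ - c`, and `α = ρ / e! > 0`. -/
def StALA : Prop := ∀ (e δ ρ : ℕ), 1 ≤ e → 1 ≤ δ → 1 ≤ ρ →
  ∀ (du : Fin ρ → ℕ) (f : MvPolynomial (Fin (e + 1)) ℂ), Mo f δ →
  ∀ L : ℕ → Submodule ℂ (Fin ρ → MvPolynomial (Fin (e + 1)) ℂ),
    (∀ k, ∀ x ∈ L k, ∀ i, x i ∈ hp (e + 1) ((k : ℤ) + δ - du i)) →
    (∀ k (l : Fin (e + 1)), ∀ x ∈ L k, dg (e + 1) ρ (X l) x ∈ L (k + 1)) →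
    (∀ (k : ℕ) (p : Fin ρ → MvPolynomial (Fin (e + 1)) ℂ),
      (∀ i, p i ∈ hp (e + 1) ((k : ℤ) - du i)) → f • p ∈ L k) →
    ∃ α γ : ℝ, 0 < α ∧ Asy e (fun k => (Module.finrank ℂ (L k) : ℝ)) α γ ∧
      Asy e (fun k => (Module.finrank ℂ (Lst f du L k) : ℝ)) α (-γ)

/-- The duality for `ι, M`. -/
def DuaC {e : ℕ} {V : Type} [AddCommGroup V] [Module ℂ V]
    (ι : MvPolynomial (Fin (e + 1)) ℂ →ₐ[ℂ] Module.End ℂ V) (M : ℕ → Submodule ℂ V) : Prop :=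
  (∀ k, FiniteDimensional ℂ (Dl ι M k)) ∧
  ∃ α γ : ℝ, 0 < α ∧ Asy e (fun k => (Module.finrank ℂ (M k) : ℝ)) α γ ∧
    Asy e (fun k => (Module.finrank ℂ (Dl ι M k) : ℝ)) α (-γ)

/-- MODULE ADU (150 lines, uses StABA StAKA StALA).
PROOF.  StABA for `M' = zm`: `u, du, f`, `f` homogeneous of degree `δ`, `f ≠ 0`; `ρ ≥ 1` since otherwise
`ι f = 0` on `M`, contradicting `Lat.tf`, `Lat.ne`.  Replacing `f` by `X_0 f` we may assume `δ ≥ 1` (`Bas`
remains true).  `f` is a nonzero polynomial over an infinite field: `f (c) ≠ 0` for some `c : Fin (e+1) → ℂ`,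
and `c ≠ 0` as `δ ≥ 1`; multiply `f` by a scalar so that `f(c) = 1`.  Let `G` be an invertible matrix with
first column `c`, `σ : A ≃ A` the linear substitution `X_i ↦ ∑_j G_ij X_j`; it preserves degrees, and
`σ f` evaluated at `(1,0,...,0)` is `f(c) = 1`, so `Mo (σ f) δ`.  Put `ι' = ι ∘ σ⁻¹`.  Then `Lat ι' M`
(`ι' (X_i)` is a linear combination of the `ι (X_j)` and conversely), `Bas ι' zm M u du δ (σ f)` (replace `α_j`
by `σ α_j`), and `φ ↦ σ ∘ φ` is an isomorphism `Dl ι M k ≃ Dl ι' M k` (`φ (ι a x) = a φ x` for all homogeneous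
`a`, by induction on the degree).  StAKA and StALA for `ι'`. -/
def StADU : Prop := ∀ (e : ℕ) (V : Type) [AddCommGroup V] [Module ℂ V]
  (ι : MvPolynomial (Fin (e + 1)) ℂ →ₐ[ℂ] Module.End ℂ V) (M : ℕ → Submodule ℂ V), 1 ≤ e →
  Lat ι M → DuaC ι M

end Pool.Agent.Helper5.KPA
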