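import Pool.Agent.Helper5.KPA.Itf2
import Pool.Agent.Helper5.KPA.StD

/-!
# PROJECT KP, chapter A, part M: the modules `M^(p)` and the inequality

`d = n r`.  `v, b` as in `VD`.  For `x ∈ QR C (n a)` the number `v i (x ^ r)` is `r` times the value of `x`
(`x ^ r ∈ QR C (n r a)`).
-/

set_option autoImplicit false

namespace Pool.Agent.Helper5.KPA

open Pool.Agent.Helper52.KP MvPolynomial

/-- the condition `x ∈ M^(p)_k` (`p ≤ r k`) -/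
def InM (C : Cone) (r : ℕ) {h : ℕ} (v : Fin h → QQ C.m → ℤ) (u : QQ C.m) (p k : ℕ) (x : QQ C.m) :
    Prop :=
  x ∈ QR C (C.n * r * k - C.n * p) ∧ (∀ l < p, x.coeff l = 0) ∧
    (x ≠ 0 → ∀ i, (p : ℤ) * v i (u ^ r) ≤ v i (x ^ r))

/-- `M^(p)_k` -/
noncomputable def MM (C : Cone) (r : ℕ) {h : ℕ} (v : Fin h → QQ C.m → ℤ) (u : QQ C.m) (p k : ℕ) :
    Submodule ℂ (QQ C.m) := Submodule.span ℂ {x | InM C r v u p k x}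

/-- the dimension of `M^(p)_k` -/
noncomputable def dM (C : Cone) (r : ℕ) {h : ℕ} (v : Fin h → QQ C.m → ℤ) (u : QQ C.m) (p k : ℕ) : ℝ :=
  Module.finrank ℂ (MM C r v u p k)

/-- a generic element `u` of `M^(1)`: it attains the minimal values for all `i` -/
structure GU (C : Cone) (r : ℕ) {h : ℕ} (v : Fin h → QQ C.m → ℤ) (b : Fin h → ℕ) (ℓ : ℝ) (δ : ℕ)
    (u : QQ C.m) : Prop where
  pos : 1 ≤ δ
  mem : u ∈ QR C (C.n * r * δ - C.n)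
  c0 : u.coeff 0 = 0
  c1 : u.coeff 1 ≠ 0
  low : ∀ i, -((r : ℝ) * ℓ * b i) < v i (u ^ r)
  upp : ∀ i, (v i (u ^ r) : ℝ) ≤ r - (r : ℝ) * ℓ * b i
  min : ∀ (k : ℕ) (x : QQ C.m), 1 ≤ k → x ∈ QR C (C.n * r * k - C.n) → x ≠ 0 → x.coeff 0 = 0 →
    (∀ i, -((r : ℝ) * ℓ * b i) < v i (x ^ r)) → ∀ i, v i (u ^ r) ≤ v i (x ^ r)

/-- MODULE MVV (120 lines).
PROOF.  `r > 0`, `n > 0` (`NF.hr`, `Good.hn`).  For `x ∈ QR C (n a)`: `x ^ r ∈ QR C (n r a)` (products of coefficients,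
`Good.mul`).  (a) `(x y)^r = x^r y^r`, `VD.mul`.  (c) `VD.mul` repeatedly.  (e) `c • x = C (C c) * x`, `VD.mul`,
`VD.cst` (`QR C 0`).  (b) Let `X` be a nonzero `C.X i₀` (`Good.Xpos`, `U` nonempty), `a + a'' = r k`, `t = C X^(n a'')`,
`t ∈ QR C (n a'')`.  `t x ∈ QR C (n r k)`, so by (a), (c): `v (x^r) = r v (t x) - v (t^r)`, the same for `y` and
`x + y`; apply `VD.add` to `t x, t y`.  (d) in the same way from `VD.hom` for `t x` (its coefficient is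
`X^(n a'') x_l`): `v (x^r) = r v (t x) - v (t^r) ≤ r (v (C (X^(n a'') x_l)) - l b) - v (t^r) = v (C x_l ^ r) - r l b`. -/
def StMVV : Prop := ∀ (C : Cone), Good C → ∀ r F, NF C r F → ∀ (h : ℕ) (v : Fin h → QQ C.m → ℤ)
  (b : Fin h → ℕ), VD C r F h v b → ∀ i : Fin h,
  (∀ a a' x y, x ∈ QR C (C.n * a) → y ∈ QR C (C.n * a') → x ≠ 0 → y ≠ 0 →
    v i ((x * y) ^ r) = v i (x ^ r) + v i (y ^ r)) ∧
  (∀ a x y, x ∈ QR C (C.n * a) → y ∈ QR C (C.n * a) → x ≠ 0 → y ≠ 0 → x + y ≠ 0 →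
    min (v i (x ^ r)) (v i (y ^ r)) ≤ v i ((x + y) ^ r)) ∧
  (∀ k x, x ∈ QR C (C.n * r * k) → x ≠ 0 → v i (x ^ r) = r * v i x) ∧
  (∀ a x l, x ∈ QR C (C.n * a) → x.coeff l ≠ 0 →
    v i (x ^ r) ≤ v i ((Polynomial.C (x.coeff l)) ^ r) - (r : ℤ) * l * b i) ∧
  (∀ a x (c : ℂ), x ∈ QR C (C.n * a) → x ≠ 0 → c ≠ 0 → v i ((c • x) ^ r) = v i (x ^ r))

/-- MODULE MSU (120 lines, uses StMVV StAGR).
PROOF.  By StMVV (b), (e) the set `{x | InM ...}` is closed under sums and scalar multiples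
(`n r k - n p = n (r k - p)`), so it is the span: first claim.  Finite dimension: let `x_l ≠ 0` be a coefficient of
`x`, `E_i = v i (u^r)`.  StMVV (d): `v i (C x_l ^ r) ≥ r l b_i + p E_i` for all `i`.  Choose `c ∈ ℕ` (independent of
`x, l`) with `c b_i + p E_i ≥ 0` for all `i`.  If `r l ≥ c` put `λ = r l - c`: `v i (C x_l^r * X^λ) ≥ c b_i + p E_i ≥ 0`
(`VD.mul, tau`), so by `VD.mem` `C x_l^r X^λ ∈ BB F (r k - p)`, `x_l^r ∈ F (r k - p) λ`, which is `⊥` if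
`λ ≥ (r k - p) L + 1` (StAGR).  So `l` is bounded, and the coefficients are in the finite-dimensional space
`C.R (n (r k - p))`.  For `p = 0`: `InM` says `x ∈ QR C (n r k)` and `0 ≤ v i (x^r) = r v i x`, that is `x ∈ BB F k`
(`VD.mem`, `VD.nonneg`; `BB F k ⊆ QR C (n r k)` as `F k l ≤ F k 0`). -/
def StMSU : Prop := ∀ (C : Cone), Good C → ∀ r F, NF C r F → ∀ (h : ℕ) (v : Fin h → QQ C.m → ℤ)
  (b : Fin h → ℕ), VD C r F h v b → ∀ (u : QQ C.m) (p k : ℕ), p ≤ r * k →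
  (∀ x, x ∈ MM C r v u p k ↔ InM C r v u p k x) ∧ FiniteDimensional ℂ (MM C r v u p k) ∧
  MM C r v u 0 k = BB F k

/-- MODULE MGU (200 lines, uses StMVV StAGR; STRONG).
PROOF.  `W_k = {x ∈ QR C (n r k - n) : x.coeff 0 = 0, x = 0 or v i (x^r) > - r ℓ b_i for all i}`, `W = ⋃_(k ≥ 1) W_k`:
each `W_k` is a subspace (StMVV), and `x ∈ W_k`, `0 ≠ y ∈ BB F k'` implies `x y ∈ W_(k+k')`.
(1) Fix `i`.  There is `0 ≠ x ∈ W` with `v i (x^r) ≤ r - r ℓ b_i`.  Let `X` be a nonzero linear form `C.X i₀`,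
`s₀ = C X^(n (r-1)) ∈ QR C (n r - n)`, `σ_j = v j (s₀^r)`.  Let `g ∈ ℤ` with `- r ℓ b_i < σ_i + r g ≤ r - r ℓ b_i`.  Choose
`c ≥ 1` with `g + c b_i ≥ 0`, `π ∈ BB F k₁` with `v i π = 1` (`VD.unif`), `t ∈ BB F k₂` with `v i t = 0`, `v j t ≥ 1` for `j ≠ i`
(`VD.sep`), and `K` large.  `y = X^c π^(g + c b_i) t^K` (`X` = the variable `τ`), `x = s₀ y`:
`v i (x^r) = σ_i + r g`, `v j (x^r) = σ_j + r (- c b_j + (g + c b_i) v j π + K v j t) > - r ℓ b_j` for `K` large; `x.coeff 0 = 0`.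
(2) The values `v i (x^r)`, `0 ≠ x ∈ W`, are integers bounded below by `- r ℓ b_i`; let `E_i` be the minimum, attained
at `x_i ∈ W_(k_i)`; `E_i ≤ r - r ℓ b_i` by (1).  (3) `x_∞ = C X^(n r k - n) τ ∈ W_k` for large `k`, with all
`v j (x_∞^r) = (r k - 1) v j (C X^(n r)) - r b_j ≥ (r k - 1) b_j - r b_j` (`X^(nr) ∈ R (n r) = F 1 1`, so `C X^(nr) τ ∈ BB F 1` and
`v j (C X^(nr)) ≥ b_j`).  (4) Multiply `x_i` by a power of an element `β_i ∈ BB F 1` with `v i β_i = 0` (`VD.unit`): all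
`x_i, x_∞` in the same `W_k =: V`, `v i (x_i^r) = E_i`, `x_∞.coeff 1 ≠ 0`.  The subspaces
`{x ∈ V : x = 0 or v i (x^r) > E_i}` and `{x ∈ V : x.coeff 1 = 0}` are proper; a vector space over an infinite field
is not a finite union of proper subspaces: take `u ∈ V` outside all of them, `δ = k`. -/
def StMGU : Prop := ∀ (C : Cone), Good C → ∀ r F, NF C r F → ∀ (h : ℕ) (v : Fin h → QQ C.m → ℤ)
  (b : Fin h → ℕ), VD C r F h v b → ∀ ℓ : ℝ, ∃ (δ : ℕ) (u : QQ C.m), GU C r v b ℓ δ u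

/-- MODULE MIJ (150 lines, uses StMVV StMSU StCOP StAGR).
PROOF.  StCOP for `u` (`k₀ = n r δ - n`): `ℓ' ∈ C.R 1`.  `w = C ℓ'^(n r κ + n) ∈ QR C (n (r κ + 1))`.
`v i (w^r) = (r κ + 1) v i (C ℓ'^(n r)) ≥ r κ + 1`, because `ℓ'^(n r) ∈ R (n r) = F 1 1`, so `C ℓ'^(nr) τ ∈ BB F 1` and
`v i (C ℓ'^(nr)) ≥ b_i ≥ 1`.  Choose `κ` with `r κ + 1 + v i (u^r) ≥ 0` for all `i`, `κ ≥ δ`.  Let `E_i = v i (u^r)`.
(1) `x ∈ M^(p+1)_k` implies `w x ∈ M^(p)_(k+κ)`: degrees `n (r k - p - 1) + n (r κ + 1)`, values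
`≥ v i (w^r) + (p+1) E_i ≥ p E_i`.  (2) `u M^(q)_(k-δ) ⊆ M^(q+1)_k` (`u.coeff 0 = 0`).  (3) Let `x ∈ M^(p+1)_k`,
`w x = u z`, `z ∈ M^(p-1)_(k+κ-δ)`.  If `x ≠ 0` then by StCOP `x = u y`, `y ∈ QR C (n (r (k-δ) - p))`;
`v i (y^r) = v i (x^r) - E_i ≥ p E_i`; `x` has no terms `τ^l`, `l < p+1`, and `u = τ (u_1 + ..)`, `u_1 ≠ 0`, so `y` has no
terms `τ^l`, `l < p`.  So `y ∈ M^(p)_(k-δ)`.  Hence `x ↦ w x` induces an injective linear map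
`M^(p+1)_k / u M^(p)_(k-δ) → M^(p)_(k+κ) / u M^(p-1)_(k+κ-δ)`; compare dimensions. -/
def StMIJ : Prop := ∀ (C : Cone), Good C → ∀ r F, NF C r F → ∀ (h : ℕ) (v : Fin h → QQ C.m → ℤ)
  (b : Fin h → ℕ), VD C r F h v b → ∀ (ℓ : ℝ) (δ : ℕ) (u : QQ C.m), GU C r v b ℓ δ u →
  ∃ κ : ℕ, δ ≤ κ ∧ ∀ p k : ℕ, 1 ≤ p → δ ≤ k → p + 1 ≤ r * (k - δ) →
    dM C r v u (p + 1) k + dM C r v u (p - 1) (k + κ - δ) ≤
      dM C r v u p (k - δ) + dM C r v u p (k + κ)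

/-- MODULE MTE (120 lines, numbers only).
PROOF.  `f_p(k) = D p k - D (p-1) (k-δ)`.  The hypothesis reads `f_(p+1)(k) ≤ f_p(k+κ)`, so
`f_p(k) ≤ f_1(k + (p-1) κ)` for large `k` (depending on `p`), and
`f_1(k) ≤ (α k^m - γ k^(m-1)) - (α (k-δ)^m + γ (k-δ)^(m-1)) + O(k^(m-2)) = (m α δ - 2 γ) k^(m-1) + O(k^(m-2))`.
`D p k = ∑_(i=1)^p f_i(k - (p-i) δ) + D 0 (k - p δ)`, so
`D p k ≤ p (m α δ - 2 γ) k^(m-1) + α k^m - m α p δ k^(m-1) + γ k^(m-1) + O(k^(m-2))`. -/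
def StMTE : Prop := ∀ (m : ℕ) (α γ : ℝ) (δ κ r : ℕ) (D : ℕ → ℕ → ℝ), 2 ≤ m → 1 ≤ r → δ ≤ κ →
  Asy m (D 0) α γ →
  (∃ K : ℝ, ∀ k : ℕ, 1 ≤ k → D 1 k ≤ α * (k : ℝ) ^ m - γ * (k : ℝ) ^ (m - 1) + K * (k : ℝ) ^ (m - 2)) →
  (∀ p k : ℕ, 1 ≤ p → δ ≤ k → p + 1 ≤ r * (k - δ) →
    D (p + 1) k + D (p - 1) (k + κ - δ) ≤ D p (k - δ) + D p (k + κ)) →
  ∀ p : ℕ, ∃ (K : ℝ) (k₀ : ℕ), ∀ k : ℕ, k₀ ≤ k →
    D p k ≤ α * (k : ℝ) ^ m + (1 - 2 * (p : ℝ)) * γ * (k : ℝ) ^ (m - 1) + K * (k : ℝ) ^ (m - 2)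

/-- MODULE MSH (60 lines, numbers only).
PROOF.  All sums are finite (`g j = 0` for `j ≥ L`).  If `a + x > 0` the numbers `⌈l + x⌉₊`, `l ≥ a`, are the integers
`j ≥ ⌈a + x⌉ ≥ 1`, so the left side is `∑_(j ≥ 1) g j - ∑_(1 ≤ j < ⌈a+x⌉) g j`, and the last sum is at most
`(⌈a+x⌉ - 1) g 0 ≤ (a + x) g 0`.  If `a + x ≤ 0` the `l` with `a ≤ l ≤ -x` contribute `g 0` each, there are
`⌊-x⌋ - a + 1 ≥ -(a + x)` of them, and the other `l` give all `j ≥ 1`. -/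
def StMSH : Prop := ∀ (g : ℕ → ℝ) (L a : ℕ) (x : ℝ), Antitone g → (∀ j, 0 ≤ g j) →
  (∀ j, L ≤ j → g j = 0) → ∃ Λ : ℕ, (∀ l, Λ ≤ l → g ⌈(l : ℝ) + x⌉₊ = 0) ∧
  ∀ Λ' : ℕ, Λ ≤ Λ' → (∑ᶠ j : ℕ, g (j + 1)) - ((a : ℝ) + x) * g 0 ≤
    ∑ l ∈ Finset.Ico a (a + Λ'), g ⌈(l : ℝ) + x⌉₊

/-- MODULE MLO (120 lines, uses StMVV StMSU StMSH StAGR).
PROOF.  `x₀ = r q (1 - ℓ)`.  `L_k = {x : x.coeff l = 0 for l < r q, x.coeff l ∈ F (k-q) ⌈l + x₀⌉₊ for l ≥ r q}`.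
Claim `L_k ⊆ M^(rq)_k`: `x ∈ QR C (n r (k - q))`, and `n r k - n (r q) = n r (k-q)`.  Let `x ≠ 0`.  For every coefficient
`x_l ≠ 0`, `j = ⌈l + x₀⌉₊`: `C x_l τ^j ∈ BB F (k-q)`, so `v i (C x_l) ≥ j b_i ≥ (l + x₀) b_i`, `v i (C x_l τ^l) ≥ x₀ b_i`; by
`VD.add` `v i x ≥ x₀ b_i` (real), `v i (x^r) = r v i x ≥ r x₀ b_i = r q (r - r ℓ) b_i ≥ r q v i (u^r)`, because
`v i (u^r) ≤ r - r ℓ b_i ≤ (r - r ℓ) b_i` (`GU.upp`, `b_i ≥ 1`).  `dim L_k = ∑_(l ≥ rq) finrank F (k-q) ⌈l + x₀⌉₊`; StMSH with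
`g j = finrank (F (k-q) j)` (antitone, finite-dimensional as `F k l ≤ F k 0`), `a = r q`, `x = x₀`,
`a + x₀ = r q (2 - ℓ)`; `wF F (k-q) = ∑ᶠ g (j+1)`, `g 0 = finrank RD C r (k-q)`. -/
def StMLO : Prop := ∀ (C : Cone), Good C → ∀ r F, NF C r F → ∀ (h : ℕ) (v : Fin h → QQ C.m → ℤ)
  (b : Fin h → ℕ), VD C r F h v b → ∀ (ℓ : ℝ) (δ : ℕ) (u : QQ C.m), GU C r v b ℓ δ u →
  ∀ q k : ℕ, q ≤ k →
    wF F (k - q) - (r : ℝ) * q * (2 - ℓ) * Module.finrank ℂ (RD C r (k - q)) ≤ dM C r v u (r * q) k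

/-- MODULE MLS (200 lines, uses StMVV StMSU StMSH StAGR).
PROOF.  `L_k`, `x₀` as in StMLO (repeat or import its proof: `dim L_k ≥ wF - r q (2-ℓ) N`, `L_k ⊆ M^(rq)_k`, and
`v i x ≥ x₀ b_i` for `0 ≠ x ∈ L_k`).  Let `b = b i₀ ≥ 2`, `E = v i₀ (u^r) ≤ r - r ℓ b`.  For `0 ≠ x ∈ M^(rq)_k`:
`r v i₀ x = v i₀ (x^r) ≥ r q E`, `v i₀ x ≥ q E`.  `J = ⌈x₀ b⌉ - q E ≥ r q (1-ℓ) b - q (r - r ℓ b) = r q (b - 1) ≥ q`.
`M^j = {x ∈ M^(rq)_k : x = 0 or v i₀ x ≥ q E + j}`, `0 ≤ j ≤ J`: `M^0` is everything, `L_k ⊆ M^J`.  Let `π ∈ BB F k₁`,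
`v i₀ π = 1`; `x_j = u^(rq) π^j ∈ M^(rq)_(k_j)`, `k_j = r q δ + j k₁`, `v i₀ x_j = q E + j` (`r v i₀ (u^(rq)) = v i₀ (u^(rqr)) = r q E`).
The linear map `BB F (k - k_j) → M^j / M^(j+1)`, `y ↦ x_j y`, has kernel `{y : y = 0 or v i₀ y ≥ 1}`, so
`dim M^j - dim M^(j+1) ≥ κ (k - k_j)^(m-1)` for `k - k_j ≥ k₀` (`VD.gro`).  Only `j < q` are used:
`dim M^(rq)_k ≥ dim L_k + q κ (k - max k_j)^(m-1) ≥ dim L_k + q (κ/2) k^(m-1)` for large `k`. -/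
def StMLS : Prop := ∀ (C : Cone), Good C → ∀ r F, NF C r F → ∀ (h : ℕ) (v : Fin h → QQ C.m → ℤ)
  (b : Fin h → ℕ), VD C r F h v b → ∀ (ℓ : ℝ) (δ : ℕ) (u : QQ C.m), GU C r v b ℓ δ u →
  ∀ i₀ : Fin h, 2 ≤ b i₀ → ∃ κ' : ℝ, 0 < κ' ∧ ∀ q : ℕ, ∃ k₀ : ℕ, ∀ k : ℕ, k₀ ≤ k →
    wF F (k - q) - (r : ℝ) * q * (2 - ℓ) * Module.finrank ℂ (RD C r (k - q)) +
      κ' * q * (k : ℝ) ^ (C.m - 1) ≤ dM C r v u (r * q) k

/-- MODULE MNU (100 lines, numbers only).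
PROOF.  For fixed `q` divide the inequality between the lower and the upper bound of `D (r q) k` by `k^(m-1)` after
cancelling `b₀ k^m`; `w (k-q) = b₀ k^m + (b₁ - m q b₀) k^(m-1) + O(k^(m-2))`, `N (k-q) = a₀ k^(m-1) + O(k^(m-2))`; `k → ∞`:
`b₁ - m q b₀ - r q (2 - ℓ) a₀ + κ' q ≤ (1 - 2 r q) (b₁ + a₀)`.  Divide by `q` and let `q → ∞`:
`- m b₀ - r (2 - ℓ) a₀ + κ' ≤ - 2 r (b₁ + a₀)`. -/
def StMNU : Prop := ∀ (m r : ℕ) (a₀ b₀ b₁ ℓ κ' : ℝ) (D : ℕ → ℕ → ℝ) (w N : ℕ → ℝ), 2 ≤ m → 1 ≤ r →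
  (∀ p : ℕ, ∃ (K : ℝ) (k₀ : ℕ), ∀ k : ℕ, k₀ ≤ k → D p k ≤ b₀ * (k : ℝ) ^ m +
    (1 - 2 * (p : ℝ)) * (b₁ + a₀) * (k : ℝ) ^ (m - 1) + K * (k : ℝ) ^ (m - 2)) →
  Asy m w b₀ b₁ → Asz (m - 1) N a₀ →
  (∀ q : ℕ, ∃ k₀ : ℕ, ∀ k : ℕ, k₀ ≤ k →
    w (k - q) - (r : ℝ) * q * (2 - ℓ) * N (k - q) + κ' * q * (k : ℝ) ^ (m - 1) ≤ D (r * q) k) →
  2 * b₁ + κ' / r ≤ m * b₀ / r - ℓ * a₀

/-- MODULE MTG (100 lines, uses StMVV StMSU).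
PROOF.  `x ∈ M^(1)_k`, `x_l ≠ 0`, `l ≥ 1`.  StMVV (d) and `GU.low`: `v i (C x_l ^ r) ≥ v i (x^r) + r l b_i ≥ v i (u^r) + r l b_i
> r (l - ℓ) b_i` for all `i`; and `v i (C x_l^r) ≥ 0` (`x_l^r ∈ R (n r (r k - 1)) = F _ 0`).  Let `μ` be the minimum over `i` of
`v i (C x_l^r) / b_i`, so `μ ≥ 0`, `μ > r (l - ℓ)` (`h ≥ 1`: if `h = 0` then `VD.mem` would put all `C X^(nr) τ^j` in `BB F 1`,
but `F 1 j = ⊥` for large `j`).  Choose `j ≥ 1` with `j (μ - r (l - ℓ)) ≥ 1`, `lam = ⌊j μ⌋ > j μ - 1 ≥ r j (l - ℓ)`.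
`v i (C x_l^(r j) τ^lam) = j v i (C x_l^r) - lam b_i ≥ 0`, so `C x_l^(rj) τ^lam ∈ BB F (j (r k - 1))` by `VD.mem`. -/
def StMTG : Prop := ∀ (C : Cone), Good C → ∀ r F, NF C r F → ∀ (h : ℕ) (v : Fin h → QQ C.m → ℤ)
  (b : Fin h → ℕ), VD C r F h v b → ∀ (ℓ : ℝ) (δ : ℕ) (u : QQ C.m), GU C r v b ℓ δ u →
  ∀ k : ℕ, 1 ≤ k → ∀ x ∈ MM C r v u 1 k, x ∈ QR C (C.n * r * k - C.n) ∧ x.coeff 0 = 0 ∧
    ∀ l, 1 ≤ l → x.coeff l ≠ 0 → Gro F r k l ℓ (x.coeff l)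

/-- MODULE MRA (50 lines).
PROOF.  `f = 0` clear.  `f ∈ F k l`, `f^j ∈ F (j k) (j l + 1)`: `C f^j τ^(jl+1) ∈ BB F (j k)`, so
`j v i (C f) ≥ (j l + 1) b_i = j l + 1` (`VD.nonneg, mul, tau`; `C f ∈ QR C (n r k)`), so `v i (C f) > l`, `≥ l + 1`, and
`v i (C f τ^(l+1)) ≥ 0` for all `i`; `VD.mem`: `f ∈ F k (l+1)`. -/
def StMRA : Prop := ∀ (C : Cone), Good C → ∀ r F, NF C r F → ∀ (h : ℕ) (v : Fin h → QQ C.m → ℤ)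
  (b : Fin h → ℕ), VD C r F h v b → (∀ i, b i = 1) → Rad C F

/-- MODULE MRC (120 lines, uses StCOP).
PROOF.  `X` a nonzero linear form `C.X i₀`, `u = C X^n`, `ℓ'` from StCOP for `u` (`k₀ = n`).
`g_p = finrank (C.R (n r k - n p))`, `0 ≤ p ≤ r`.  Multiplication by `X^n` is an injective map
`R (n r k - n p) → R (n r k - n (p-1))`; `h_p = g_(p-1) - g_p = dim R (n r k - n (p-1)) / X^n R (n r k - n p)`.  For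
`1 ≤ p < r` multiplication by `ℓ'^n` induces a map
`R (n r k - n p) / X^n R (n r k - n (p+1)) → R (n r k - n (p-1)) / X^n R (n r k - n p)`, injective by StCOP: if
`ℓ'^n x = X^n z` then `x = X^n y` (constant polynomials in `τ`).  So `h_(p+1) ≤ h_p`, and
`∑_(p=1)^r h_p = g_0 - g_r = N_k - N_(k-1)`; so `h_1 ≥ (N_k - N_(k-1)) / r`. -/
def StMRC : Prop := ∀ (C : Cone), Good C → ∀ r F, NF C r F → ∀ k : ℕ, 1 ≤ k →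
  (Module.finrank ℂ (C.R (C.n * r * k - C.n)) : ℝ) ≤ Module.finrank ℂ (RD C r k) -
    ((Module.finrank ℂ (RD C r k) : ℝ) - Module.finrank ℂ (RD C r (k - 1))) / r

/-- MODULE MRN (60 lines, numbers only).
PROOF.  `a₀ k^e - a₁ k^(e-1) - o ≤ D k ≤ N k - (N k - N (k-1)) / r = a₀ k^e + (a₁ - e a₀ / r) k^(e-1) + o`,
`o = O(k^(e-2))` (`O(1/k)` for `e = 1`); divide by `k^(e-1)`, `k → ∞`. -/
def StMRN : Prop := ∀ (e r : ℕ) (a₀ a₁ : ℝ) (D N : ℕ → ℝ), 1 ≤ e → 1 ≤ r → Asy e N a₀ a₁ →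
  Asy e D a₀ (-a₁) → (∀ k : ℕ, 1 ≤ k → D k ≤ N k - (N k - N (k - 1)) / r) →
  e * a₀ / r ≤ 2 * a₁

/-- MODULE AFI (200 lines, final assembly; uses everything).
PROOF.  `m = 2 n ≥ 2`.  StANN, StATD: `a : Fin (m+1) → QQ m` with `NN (BB F) a` and `a' : Fin m → ..` with
`NN (RD C r) a'`; StAGL, StADU (`e = m`, resp. `e = m - 1 ≥ 1`): `Asy m (finrank BB F k) α γ`,
`Asy m (finrank Dl) α (-γ)`, `Asy (m-1) (finrank RD) a₀ a₁`, `Asy (m-1) (finrank Dl') a₀ (-a₁)`, `0 < a₀`.  `b₀ = α`,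
`b₁ = γ - a₀`; `Ex` follows from StABK (for `k ≥ 1`; `2 n - 1 = m - 1`).
StMRC, StARF, StMRN (`e = m - 1`): `(m-1) a₀ / r ≤ 2 a₁`.  Given `Slo C r F ℓ`: StAVL, StMGU; `D p k = dM C r v u p k`;
`D 0 k = finrank (BB F k)` (StMSU), `D 1 k ≤ finrank Dl` by StMTG, StTFB (`E = MM .. 1 k`), StMIJ, StMTE, StMLO, StMNU with `κ' = 0`:
`2 b₁ ≤ m b₀ / r - ℓ a₀`.  So `2 (a₁ b₀ - a₀ b₁) ≥ (m-1) a₀ b₀ / r - a₀ (m b₀ / r - ℓ a₀) = a₀ (ℓ a₀ - b₀ / r)` (`b₀ = α > 0`).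
Equality implies `2 b₁ = m b₀ / r - ℓ a₀`, and then all `b i = 1` (otherwise StMLS and StMNU give `2 b₁ < ..`), so
StMRA gives `Rad C F`. -/
def StAFI : Prop := StAGR → StABK → StANN → StAGL → StATD → StADU → StTFB → StAVL → StCOP → StARF →
  StMVV → StMSU → StMGU → StMIJ → StMTE → StMLO → StMLS → StMNU → StMTG → StMRA → StMRC → StMRN →
  StALG

end Pool.Agent.Helper5.KPA
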